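import Pool.Agent.H64.GG.TC

/-!
# MP_c65535_nt, row REDP: reduction to a number which is reduced
-/

set_option autoImplicit false

namespace Pool.Agent.H75.GG

open NumberField Height Finset Polynomial Pool.Agent.H24.RD Pool.Agent.H23.RDD Pool.Agent.H29.RQ
  Pool.Agent.H29.SX Pool.Agent.H29.LG Pool.Agent.H64.GG

/-- quotient is a root of unity -/
def Rt (x y : Om) : Prop := ∃ k : ℕ, 0 < k ∧ x ^ k = y ^ k

lemma Rt_refl (x : Om) : Rt x x := ⟨1, one_pos, rfl⟩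

lemma Rt_symm {x y : Om} (h : Rt x y) : Rt y x := by
  obtain ⟨k, hk, h1⟩ := h
  exact ⟨k, hk, h1.symm⟩

lemma Rt_trans {x y z : Om} (h : Rt x y) (h' : Rt y z) : Rt x z := by
  obtain ⟨k, hk, h1⟩ := h
  obtain ⟨l, hl, h2⟩ := h'
  refine ⟨k * l, Nat.mul_pos hk hl, ?_⟩
  rw [pow_mul, h1, ← pow_mul, mul_comm k l, pow_mul, h2, ← pow_mul]

lemma Rt_map (σ : Om ≃ₐ[ℚ] Om) (x y : Om) : Rt (σ x) (σ y) ↔ Rt x y := by
  unfold Rt
  constructor
  · rintro ⟨k, hk, h⟩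
    refine ⟨k, hk, σ.injective ?_⟩
    rw [map_pow, map_pow, h]
  · rintro ⟨k, hk, h⟩
    refine ⟨k, hk, ?_⟩
    rw [← map_pow, ← map_pow, h]

theorem pf_REDP : T_REDP := by
  classical
  intro E d β hβ hC
  obtain ⟨s, hs, hσs⟩ := hC
  have hfin : {y : Om | ∃ σ : Om ≃ₐ[ℚ] Om, (∀ z ∈ E, σ z = z) ∧ σ β = y}.Finite := by
    refine s.finite_toSet.subset ?_
    rintro y ⟨σ, hσ, rfl⟩
    exact hσs σ hσ
  let Xf : Finset Om := hfin.toFinset
  have hX : ∀ y, y ∈ Xf ↔ ∃ σ : Om ≃ₐ[ℚ] Om, (∀ z ∈ E, σ z = z) ∧ σ β = y := fun y =>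
    hfin.mem_toFinset
  have hXs : Xf ⊆ s := by
    intro y hy
    obtain ⟨σ, hσ, rfl⟩ := (hX y).1 hy
    exact hσs σ hσ
  have hXd : Xf.card ≤ d := (Finset.card_le_card hXs).trans hs
  have hβX : β ∈ Xf := (hX β).2 ⟨AlgEquiv.refl, fun z _ => rfl, rfl⟩
  -- the automorphisms permute the conjugates
  have hinv : ∀ σ : Om ≃ₐ[ℚ] Om, (∀ z ∈ E, σ z = z) → ∀ z ∈ E, σ.symm z = z := by
    intro σ hσ z hz
    have h1 := hσ z hz
    calc σ.symm z = σ.symm (σ z) := by rw [h1]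
      _ = z := σ.symm_apply_apply z
  have hXm : ∀ σ : Om ≃ₐ[ℚ] Om, (∀ z ∈ E, σ z = z) → ∀ y, σ y ∈ Xf ↔ y ∈ Xf := by
    intro σ hσ y
    rw [hX, hX]
    constructor
    · rintro ⟨τ, hτ, h⟩
      refine ⟨τ.trans σ.symm, fun z hz => ?_, ?_⟩
      · rw [AlgEquiv.trans_apply, hτ z hz, hinv σ hσ z hz]
      · rw [AlgEquiv.trans_apply, h, σ.symm_apply_apply]
    · rintro ⟨τ, hτ, h⟩
      refine ⟨τ.trans σ, fun z hz => ?_, ?_⟩
      · rw [AlgEquiv.trans_apply, hτ z hz, hσ z hz]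
      · rw [AlgEquiv.trans_apply, h]
  let cls : Om → Finset Om := fun x => Xf.filter (fun y => Rt x y)
  have hcls : ∀ x y, y ∈ cls x ↔ y ∈ Xf ∧ Rt x y := fun x y => Finset.mem_filter
  have hcm : ∀ σ : Om ≃ₐ[ℚ] Om, (∀ z ∈ E, σ z = z) → ∀ x, cls (σ x) = (cls x).image σ := by
    intro σ hσ x
    ext y
    rw [Finset.mem_image]
    constructor
    · intro hy
      rw [hcls] at hy
      refine ⟨σ.symm y, ?_, σ.apply_symm_apply y⟩
      rw [hcls, ← hXm σ hσ, ← Rt_map σ, σ.apply_symm_apply]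
      exact hy
    · rintro ⟨w, hw, rfl⟩
      rw [hcls] at hw ⊢
      rw [hXm σ hσ, Rt_map σ]
      exact hw
  have hce : ∀ x y, Rt x y → cls x = cls y := by
    intro x y h
    ext w
    rw [hcls, hcls]
    exact ⟨fun hw => ⟨hw.1, Rt_trans (Rt_symm h) hw.2⟩, fun hw => ⟨hw.1, Rt_trans h hw.2⟩⟩
  let a : ℕ := (cls β).card
  have hcard : ∀ x ∈ Xf, (cls x).card = a := by
    intro x hx
    obtain ⟨σ, hσ, rfl⟩ := (hX x).1 hx
    rw [hcm σ hσ, Finset.card_image_of_injective _ σ.injective]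
  let β₁ : Om := ∏ y ∈ cls β, y
  have hσβ : ∀ σ : Om ≃ₐ[ℚ] Om, (∀ z ∈ E, σ z = z) → σ β₁ = ∏ y ∈ cls (σ β), y := by
    intro σ hσ
    rw [hcm σ hσ, Finset.prod_image fun x _ y _ h => σ.injective h, map_prod]
  have hk : ∃ k : ℕ, 0 < k ∧ ∀ y ∈ cls β, y ^ k = β ^ k := by
    have h1 : ∀ y : Om, ∃ k : ℕ, 0 < k ∧ (y ∈ cls β → β ^ k = y ^ k) := by
      intro y
      by_cases hy : y ∈ cls β
      · obtain ⟨k, hk, h⟩ := ((hcls β y).1 hy).2
        exact ⟨k, hk, fun _ => h⟩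
      · exact ⟨1, one_pos, fun h => absurd h hy⟩
    choose kf hkf hkf' using h1
    refine ⟨∏ y ∈ cls β, kf y, Finset.prod_pos fun y _ => hkf y, fun y hy => ?_⟩
    obtain ⟨m, hm⟩ := Finset.dvd_prod_of_mem kf hy
    rw [hm, pow_mul, pow_mul, hkf' y hy]
  obtain ⟨k, hk0, hk⟩ := hk
  have hpow : β₁ ^ k = (β ^ a) ^ k := by
    rw [← Finset.prod_pow, Finset.prod_congr rfl hk, Finset.prod_const, ← pow_mul, ← pow_mul,
      mul_comm]
  have ha : 0 < a := Finset.card_pos.2 ⟨β, (hcls β β).2 ⟨hβX, Rt_refl β⟩⟩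
  refine ⟨a, (Xf.image cls).card, k, β₁, ha, ?_, ?_, ?_, hk0, hpow, ?_, ?_⟩
  · exact Finset.card_pos.2 ⟨cls β, Finset.mem_image_of_mem cls hβX⟩
  · refine le_trans ?_ hXd
    rw [Finset.card_eq_sum_card_image cls Xf, mul_comm, ← smul_eq_mul]
    refine Finset.card_nsmul_le_sum _ _ _ fun c hc => ?_
    obtain ⟨x, hx, rfl⟩ := Finset.mem_image.1 hc
    rw [← hcard x hx]
    refine Finset.card_le_card fun y hy => ?_
    rw [hcls] at hy
    exact Finset.mem_filter.2 ⟨hy.1, (hce x y hy.2).symm⟩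
  · refine Finset.prod_ne_zero_iff.2 fun y hy => ?_
    obtain ⟨σ, _, rfl⟩ := (hX y).1 ((hcls β y).1 hy).1
    exact (map_ne_zero σ).2 hβ
  · refine ⟨(Xf.image cls).image fun c => ∏ y ∈ c, y, Finset.card_image_le, fun σ hσ => ?_⟩
    rw [hσβ σ hσ]
    refine Finset.mem_image_of_mem (fun c : Finset Om => ∏ y ∈ c, y)
      (Finset.mem_image_of_mem cls ((hX (σ β)).2 ⟨σ, hσ, rfl⟩))
  · intro σ hσ k' hk' h
    have h1 : Rt β (σ β) := by
      refine ⟨a * (k * k'), Nat.mul_pos ha (Nat.mul_pos hk0 hk'), ?_⟩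
      have h2 : β ^ (a * (k * k')) = β₁ ^ (k * k') := by
        rw [pow_mul, pow_mul, ← hpow, ← pow_mul]
      have h3 : (σ β) ^ (a * (k * k')) = (σ β₁) ^ (k * k') := by
        rw [← map_pow, h2, map_pow]
      rw [h2, h3, mul_comm k k', pow_mul, pow_mul, h]
    rw [hσβ σ hσ, ← hce β (σ β) h1]

end Pool.Agent.H75.GG
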