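import Pool.Agent.H75.GG.Targets

/-!
# Unfindable errors at every length: targets of part B (all stages)
-/

set_option autoImplicit false

namespace Pool.Agent.H75.GG

open Finset Filter Pool.Agent.H6.NB Pool.Agent.H70.OQ Pool.Agent.H75.GS

/-- The statement of the theorem. -/
def Main3 : Prop :=
  (∃ F : Machine 1, ∀ O, F.lang O = wlang O) ∧
  ∀ (κ : ℕ → ℕ) (V : ∀ i, Machine (κ i)) (h g : ℕ → ℕ → ℕ)
    (Q : ℕ → List Bool → List Bool → QAlg) (S : ℕ → ℕ → Sampler),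
    (∀ i, (∀ n, n ≤ h i n) ∧ ∃ (C : ℕ) (ε : ℝ), 0 < ε ∧ ∀ α x, (Q i α x).Short (h i x.length) ∧
      ((Q i α x).T : ℝ) ≤ C * 2 ^ ((1 - ε) * x.length)) →
    (∀ j, Monotone (g j) ∧ ∀ m, m ≤ 2 ^ g j m ∧ (S j m).alg.Short (2 ^ g j m) ∧
      (S j m).alg.T ≤ 2 ^ g j m) →
    (∀ i j a, ∀ᶠ n in atTop, g j (h i n ^ a) ^ a ≤ n) →
    ∃ O : List Bool → Bool, Uniq O ∧
      (∀ i, ∀ᶠ n in atTop, ∀ α : List Bool, α.length ≤ h i n →
        ∃ x : List Bool, x.length = n ∧ ¬ Correct (Q i α x) O (wlang O) x) ∧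
      ∀ i j d, ∀ᶠ m in atTop,
        (S j m).hit (ext V d O) {x | x ∈ Err (V i) i O ∧ m ≤ x.length} ≤ 1 / 2 ^ g j m

/-! ## Formulas -/

/-- FMA: the universal machine is given by formulas. -/
def T_FMA : Prop := ∀ (K : ℕ → ℕ) (prog : ℕ → List Bool → List (List Bool) → DT) (e : ℕ → ℕ),
  (∀ r, Smallk (K r) (prog r)) →
  LocA (fun s O => acck (K (e s.length)) (prog (e s.length)) s O) ∧
  ∀ n a t Km : ℕ, 2 ≤ n → n ^ 2 ^ a ≤ t ^ 2 → (∀ l < n ^ 2 ^ a, K (e l) ≤ Km) →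
    FmM n a t Km fun s O => acck (K (e s.length)) (prog (e s.length)) s O

/-- FMP: machines which ignore some strings of the tables. -/
def T_FMP : Prop := ∀ (acc : List Bool → (List Bool → Bool) → Prop) (U : ℕ → Set (List Bool)),
  (∀ l, ∀ w ∈ U l, ∃ (m : ℕ) (x : Xn m) (z : Ys m 0), w = pst m x z) →
  (LocA acc → LocA (ign acc U)) ∧
  ∀ n a t K : ℕ, 2 ≤ n → 1 ≤ t → FmM n a t K acc → FmM n a t K (ign acc U)

/-! ## The union bound -/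

/-- UN1: finitely many events. -/
def T_UN1 : Prop := ∀ (I E : Type) [DecidableEq I] (A : I → Type) [∀ i, Fintype (A i)]
  [∀ i, Nonempty (A i)] (w : ∀ i, A i → ℝ), (∀ i a, 0 ≤ w i a) → (∀ i, ∑ a, w i a = 1) →
  ∀ (B : E → (∀ i, A i) → Prop) (S D : E → Finset I) (δ : E → ℝ),
  (∀ e (ω ω' : ∀ i, A i), (∀ i ∈ D e, ω i = ω' i) → B e ω → B e ω') →
  (∀ e (ω : ∀ i, A i), ∑ τ : ∀ i : S e, A i,
    (∏ i, w i.1 (τ i)) * ic (B e (glue (S e) ω τ)) ≤ δ e) →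
  ∀ F : Finset E, ∑ e ∈ F, δ e < 1 → ∃ ω, ∀ e ∈ F, ¬ B e ω

/-- UN2: compactness. -/
def T_UN2 : Prop := ∀ (I E : Type) (A : I → Type) [∀ i, Finite (A i)] [∀ i, Nonempty (A i)]
  (B : E → (∀ i, A i) → Prop) (D : E → Finset I),
  (∀ e (ω ω' : ∀ i, A i), (∀ i ∈ D e, ω i = ω' i) → B e ω → B e ω') →
  (∀ F : Finset E, ∃ ω, ∀ e ∈ F, ¬ B e ω) → ∃ ω, ∀ e, ¬ B e ω

/-- TR1: one cell. -/
def T_TR1 : Prop := ∀ (I : Type) [DecidableEq I] (A : I → Type) [∀ i, Fintype (A i)]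
  (w : ∀ i, A i → ℝ) (ω : ∀ i, A i) (i : I) (f : (∀ i, A i) → ℝ),
  ∑ τ : ∀ j : ({i} : Finset I), A j, (∏ j, w j.1 (τ j)) * f (glue {i} ω τ) =
    ∑ a, w i a * f (Function.update ω i a)

/-- The labels are equidistributed. -/
def LabOK (G : Dat) : Prop := ∀ n (k : Fin (G.r n)),
  (2 : ℝ) ^ n ≤ 2 * G.r n * (univ.filter fun x : Xn n => G.lab n x = k).card

/-- WGT: the weights of the cells. -/
def T_WGT : Prop := ∀ G : Dat, LabOK G →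
  (∀ i, Nonempty (Val G i)) ∧ (∀ i c, 0 ≤ wgt G i c) ∧ ∀ i, ∑ c, wgt G i c = 1

/-- TRL: the cells of a stage. -/
def T_TRL : Prop := ∀ (G : Dat) (ω : Cfg G) (n : ℕ) [Fintype (Om n (2 ^ G.aa n))]
  (S : Finset (ℕ ⊕ List Bool)),
  (∀ i, i ∈ S ↔ i = .inl n ∨ ∃ s : Om n (2 ^ G.aa n), i = .inr s.1) → ∀ f : Cfg G → ℝ,
  ∑ τ : ∀ i : S, Val G i, (∏ i, wgt G i.1 (τ i)) * f (glue S ω τ) =
    1 / ((Fintype.card (Wn n × Spc G n) : ℝ) * 2 ^ Fintype.card (Om n (2 ^ G.aa n))) *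
      ∑ p : Wn n, ∑ y : Spc G n, ∑ κ, ∑ P, WtB κ P * f (put ω n p y κ P)

/-! ## Seeds and worlds -/

/-- SEE: the values of the seed. -/
def T_SEE : Prop := ∀ (G : Dat) (ω : Cfg G),
  (∀ n x z, G.n0 ≤ n → seed ω (pst n x z) = tT (jn (cfS ω n) univ (cfT ω n)) (x, z)) ∧
  (∀ n x z, n < G.n0 → seed ω (pst n x z) = false) ∧ (∀ s, seed ω (key s) = cfK ω s) ∧
  (∀ s (i : Fin (ns s)) (v : VV (qs s)),
    seed ω (blk s i v.1 (List.ofFn v.2)) = cfP ω s i v) ∧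
  ∀ w, seed ω w = true → (∃ n x z, w = pst n x z) ∨ (∃ s, w = key s) ∨
    ∃ (s : List Bool) (i : Fin (ns s)) (v : VV (qs s)), w = blk s i v.1 (List.ofFn v.2)

/-- SPL: the seed is the seed of a stage. -/
def T_SPL : Prop := ∀ (G : Dat) (ω : Cfg G) (n : ℕ) (k : Fin (G.r n)) (p : Wn n) (y : Spc G n)
  (κ : Om n (2 ^ G.aa n) → Bool) (P : Blk (fun s : Om n (2 ^ G.aa n) => ns s.1) fun s => qs s.1),
  G.n0 ≤ n → seed (put ω n p y κ P) = sdg 1 n (2 ^ G.aa n) (seed ω)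
    (UU n (bs (jn y (univ.erase k) p) (row y k) (y k).2) (row y k)) κ P

/-- OFF: the machine of the configuration is the machine of a stage; it depends only on the other
special rows. -/
def T_OFF : Prop := ∀ (G : Dat) (ω : Cfg G) (n : ℕ) (k : Fin (G.r n)) (p p' : Wn n)
  (y y' : Spc G n) (κ κ' : Om n (2 ^ G.aa n) → Bool)
  (P P' : Blk (fun s : Om n (2 ^ G.aa n) => ns s.1) fun s => qs s.1), G.n0 ≤ n →
  ign G.acc (Spt (put ω n p y κ P)) = mskA (n ^ 2 ^ G.a0 n) (pst n (row y k) (y k).2)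
    (ign G.acc (Oth (put ω n p y κ P) n k)) ∧
  ((∀ k' ≠ k, y k' = y' k') →
    Oth (put ω n p y κ P) n k = Oth (put ω n p' y' κ' P') n k ∧
    Lat (put ω n p y κ P) n k = Lat (put ω n p' y' κ' P') n k) ∧
  cfS (put ω n p y κ P) n = y ∧ cfT (put ω n p y κ P) n = p

/-- LCG: the machines of a configuration are local. -/
def T_LCG : Prop := ∀ (G : Dat) (ω : Cfg G), LocA G.acc →
  LocA (ign G.acc (Spt ω)) ∧ (∀ n k, LocA (ign G.acc (Lat ω n k))) ∧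
  (∀ n k, LocA (ign G.acc (Oth ω n k))) ∧ Bldg (ign G.acc (Spt ω)) (seed ω) (wld ω) ∧
  (∀ n (k : Fin (G.r n)) l, ∀ w ∈ Lat ω n k l, ∃ (m : ℕ) (x : Xn m) (z : Ys m 0), w = pst m x z) ∧
  ∀ n (k : Fin (G.r n)) l, ∀ w ∈ Oth ω n k l, ∃ (m : ℕ) (x : Xn m) (z : Ys m 0), w = pst m x z

/-- UNQ: unique witnesses, and the members. -/
def T_UNQ : Prop := ∀ (G : Dat) (ω : Cfg G), LocA G.acc → Uniq (wld ω) ∧
  ∀ n (x : Xn n), G.n0 ≤ n →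
    (List.ofFn x ∈ wlang (wld ω) ↔ (jn (cfS ω n) univ (cfT ω n)).2 x = true)

/-- The configurations agree at all cells of length at most `l`. -/
def AgC {G : Dat} (l : ℕ) (ω ω' : Cfg G) : Prop :=
  (∀ n ≤ l, ω (.inl n) = ω' (.inl n)) ∧ ∀ s : List Bool, s.length ≤ l → ω (.inr s) = ω' (.inr s)

/-- DEP: short strings of the oracle depend only on short cells. -/
def T_DEP : Prop := ∀ (G : Dat) (ω ω' : Cfg G) (l : ℕ), LocA G.acc → AgC l ω ω' →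
  (∀ w : List Bool, w.length ≤ l → wld ω w = wld ω' w) ∧
  ∀ n (k : Fin (G.r n)), n ≤ l → G.H n ≤ l → Enk ω n k = Enk ω' n k

/-! ## The events -/

/-- Some algorithm is correct at the length `n`. -/
def BdA {G : Dat} (J : ℕ → Type) (Q : ∀ n, J n → List Bool → QAlg) (n : ℕ) (ω : Cfg G) : Prop :=
  ∃ j : J n, ∀ x : List Bool, x.length = n → Correct (Q n j x) (wld ω) (wlang (wld ω)) x

/-- Some sampler finds an error of the special string `(n, k)`. -/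
def BdH {G : Dat} (ι : ℕ → Type) (S : ∀ n, ι n → Sampler)
    (Eo : ∀ n, ι n → (List Bool → Bool) → List Bool → Bool) (n : ℕ) (k : Fin (G.r n))
    (ω : Cfg G) : Prop :=
  ∃ i : ι n, 1 / 2 ^ (n / 4) < (S n i).hit (Eo n i (wld ω)) (Enk ω n k)

/-- The key of the instance `s` can be read. -/
def DcS {G : Dat} (ω : Cfg G) (s : List Bool) : Prop := DecA (qs s) (ns s) (cfK ω s) (cfP ω s)

/-- The conditions on the data; the machine is given by formulas of depth `K n` at the stage `n`. -/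
structure OKD (G : Dat) (K : ℕ → ℕ) : Prop where
  loc : LocA G.acc
  lab : LabOK G
  n64 : 64 ≤ G.n0
  a1 : ∀ n ≥ G.n0, 1 ≤ G.a0 n
  aa : ∀ n ≥ G.n0, G.a0 n < G.aa n
  len : ∀ n ≥ G.n0, 3 * n + 1 ≤ G.H n
  rr : ∀ n ≥ G.n0, n ≤ G.r n ∧ G.r n ≤ 2 ^ (n / 16) ∧ (2 * n + 1) * G.r n ≤ G.N n
  prm : ∀ n ≥ G.n0, ∃ M ≤ 2 ^ (n / 16), PrS (K n) n (G.aa n) M
  fm : ∀ n ≥ G.n0, ∀ t, G.N n ≤ t ^ 2 → FmM n (G.aa n) t (K n) G.acc

/-- The conditions on the samplers of the stages. -/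
def OKS (G : Dat) (ι : ℕ → Type) [∀ n, Fintype (ι n)] (S : ∀ n, ι n → Sampler)
    (Eo : ∀ n, ι n → (List Bool → Bool) → List Bool → Bool) : Prop :=
  ∀ n ≥ G.n0, Fintype.card (ι n) ≤ 2 ^ (n / 16) ∧ ∀ i,
    ((S n i).alg.Short (G.N n) ∧ (S n i).alg.T ^ 2 ≤ 2 ^ (n / 8)) ∧ ExtP n (G.N n) G.acc (Eo n i)

/-- The conditions on the algorithms of the stages. -/
def OKQ (G : Dat) (J : ℕ → Type) [∀ n, Fintype (J n)] (Q : ∀ n, J n → List Bool → QAlg) : Prop :=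
  ∀ n ≥ G.n0, Fintype.card (J n) ≤ 2 ^ G.r n ∧ ∃ τ : ℝ, 0 < τ ∧
    1154 * τ ^ 2 * (G.r n : ℝ) ^ 2 / 4 ^ n + 2 * G.r n / 2 ^ n ≤ 1 / 16 ∧
    ∀ j x, x.length = n → (Q n j x).Short (G.H n) ∧ ((Q n j x).T : ℝ) ≤ τ

/-- HID: the samplers rarely find an error. -/
def T_HID : Prop := ∀ (G : Dat) (K : ℕ → ℕ), OKD G K → ∀ (ι : ℕ → Type) [∀ n, Fintype (ι n)]
  (S : ∀ n, ι n → Sampler) (Eo : ∀ n, ι n → (List Bool → Bool) → List Bool → Bool),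
  OKS G ι S Eo → ∀ n ≥ G.n0, ∀ (k : Fin (G.r n)) (T : Finset (ℕ ⊕ List Bool)),
  (∀ i, i ∈ T ↔ i = .inl n ∨ ∃ s : Om n (2 ^ G.aa n), i = .inr s.1) → ∀ ω : Cfg G,
  ∑ τ : ∀ i : T, Val G i, (∏ i, wgt G i.1 (τ i)) * ic (BdH ι S Eo n k (glue T ω τ)) ≤
    G.r n * 2 ^ (n / 2 + 7) / 2 ^ n

/-- HRD: the algorithms are rarely correct. -/
def T_HRD : Prop := ∀ (G : Dat) (K : ℕ → ℕ), OKD G K → ∀ (J : ℕ → Type) [∀ n, Fintype (J n)]
  (Q : ∀ n, J n → List Bool → QAlg), OKQ G J Q → ∀ n ≥ G.n0, ∀ ω : Cfg G,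
  ∑ c : Val G (.inl n), wgt G (.inl n) c * ic (BdA J Q n (Function.update ω (.inl n) c)) ≤
    1 / 2 ^ n

/-- DCE: the keys can mostly be read. -/
def T_DCE : Prop := ∀ (G : Dat) (s : List Bool) (ω : Cfg G),
  ∑ c : Val G (.inr s), wgt G (.inr s) c * ic (¬ DcS (Function.update ω (.inr s) c) s) ≤
    (1 / 4) ^ s.length

/-- The labels of the events. -/
abbrev Evs (G : Dat) : Type := ℕ ⊕ (Σ n : ℕ, Fin (G.r n)) ⊕ List Bool

/-- The bounds for the probabilities of the events. -/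
noncomputable def dlt (G : Dat) : Evs G → ℝ
  | .inl n => if G.n0 ≤ n then 1 / 2 ^ n else 0
  | .inr (.inl c) => if G.n0 ≤ c.1 then G.r c.1 * 2 ^ (c.1 / 2 + 7) / 2 ^ c.1 else 0
  | .inr (.inr s) => if G.n0 ≤ s.length then (1 / 4) ^ s.length else 0

/-- SUM: the sum of the bounds. -/
def T_SUM : Prop := ∀ G : Dat, 64 ≤ G.n0 → (∀ n ≥ G.n0, G.r n ≤ 2 ^ (n / 16)) →
  ∀ F : Finset (Evs G), ∑ e ∈ F, dlt G e < 1

/-- GLB: there is a good configuration. -/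
def T_GLB : Prop := ∀ (G : Dat) (K : ℕ → ℕ), OKD G K → ∀ (ι : ℕ → Type) [∀ n, Fintype (ι n)]
  (S : ∀ n, ι n → Sampler) (Eo : ∀ n, ι n → (List Bool → Bool) → List Bool → Bool),
  OKS G ι S Eo → ∀ (J : ℕ → Type) [∀ n, Fintype (J n)] (Q : ∀ n, J n → List Bool → QAlg),
  OKQ G J Q → ∃ ω : Cfg G, (∀ n ≥ G.n0, ¬ BdA J Q n ω) ∧
    (∀ n ≥ G.n0, ∀ k : Fin (G.r n), ¬ BdH ι S Eo n k ω) ∧
    ∀ s : List Bool, G.n0 ≤ s.length → DcS ω s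

/-! ## The algorithms with advice -/

/-- The oracle `OT` together with the special strings with labels in `F`. -/
def OF {G : Dat} {n : ℕ} (OT : List Bool → Bool) (y : Spc G n) (F : Finset (Fin (G.r n)))
    (w : List Bool) : Bool := OT w || decide (∃ k ∈ F, w = ust y k)

/-- The algorithms `Q x` are correct at the rows which are not members of `b`. -/
def CoQ {G : Dat} {n : ℕ} (b : Xn n → Bool) (OT : List Bool → Bool) (y : Spc G n)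
    (Q : Xn n → QAlg) : Prop :=
  ∀ x, b x = false → (x = row y (G.lab n x) → 2 / 3 ≤ (Q x).prob (OF OT y univ)) ∧
    (x ≠ row y (G.lab n x) → (Q x).prob (OF OT y univ) ≤ 1 / 3)

/-- AD1: the next special string is queried, or the remaining special rows are known. -/
def T_AD1 : Prop := ∀ (G : Dat) (n : ℕ) (b : Xn n → Bool) (OT : List Bool → Bool) (y : Spc G n)
  (Q : Xn n → QAlg) (τ : ℝ), 0 < τ → (∀ x, ((Q x).T : ℝ) ≤ τ) → CoQ b OT y Q →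
  ∀ F : Finset (Fin (G.r n)),
  (∃ j ∉ F, ∃ x, 1 / (577 * τ * G.r n) ≤ qm (Q x) (OF OT y F) (ust y j)) ∨
  ∀ x, b x = false → (1 / 2 < (Q x).prob (OF OT y F) ↔ x = row y (G.lab n x))

open Classical in
/-- AD2: the number of choices which can be reconstructed. -/
def T_AD2 : Prop := ∀ (r : ℕ) (X : Fin r → Type) (Z : Type) [∀ k, Fintype (X k)] [Fintype Z]
  (Hv : Finset (Fin r) → (∀ k, X k × Z) → ∀ j, Finset (X j × Z))
  (ac : Finset (Fin r) → (∀ k, X k × Z) → ∀ j, X j → Prop) (θ : ℝ),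
  (∀ F y y', (∀ k ∈ F, y k = y' k) → Hv F y = Hv F y' ∧ ac F y = ac F y') →
  (∀ F y, ∑ j, ((Hv F y j).card : ℝ) / ((Fintype.card (X j) : ℝ) * Fintype.card Z) ≤ θ) →
  (∀ F y j x x', ac F y j x → ac F y j x' → x = x') → (∀ j, 1 ≤ θ * Fintype.card (X j)) →
  0 < Fintype.card Z →
  ((univ.filter fun y : ∀ k, X k × Z => ∀ F ≠ univ,
    (∃ j ∉ F, y j ∈ Hv F y j) ∨ ∀ j ∉ F, ac F y j (y j).1).card : ℝ) ≤
    (r + 1) * θ ^ r * ∏ j, ((Fintype.card (X j) : ℝ) * Fintype.card Z)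

open Classical in
/-- AD3: few choices of the special rows are good for some algorithm. -/
def T_AD3 : Prop := ∀ (G : Dat) (n : ℕ) (b : Xn n → Bool) (OT : List Bool → Bool) (J : Type)
  [Fintype J] (Q : J → Xn n → QAlg) (τ θ : ℝ), LabOK G → 0 < τ → (∀ j x, ((Q j x).T : ℝ) ≤ τ) →
  1154 * τ ^ 2 * (G.r n : ℝ) ^ 2 / 4 ^ n + 2 * G.r n / 2 ^ n ≤ θ →
  ((univ.filter fun y : Spc G n => (∀ k, b (row y k) = false) ∧
    ∃ j, CoQ b OT y (Q j)).card : ℝ) ≤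
    Fintype.card J * ((G.r n + 1) * θ ^ G.r n * Fintype.card (Spc G n))

/-- LO2: summation over the configurations without the special rows. -/
def T_LO2 : Prop := ∀ (G : Dat) (n : ℕ) (φ : Wn n → Spc G n → ℝ),
  ∑ p : Wn n, ∑ y : Spc G n, φ (rm y p) y =
    2 ^ G.r n * ∑ p : Wn n, ∑ y ∈ univ.filter (fun y : Spc G n => ∀ k, p.2 (row y k) = false),
      φ p y

/-- MWR: the special strings are not seen by short instances. -/
def T_MWR : Prop := ∀ (G : Dat) (ω : Cfg G) (n : ℕ) (p : Wn n), LocA G.acc → G.n0 ≤ n →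
  3 * n + 1 ≤ G.H n → ∃ OT : List Bool → Bool, (∀ x z, OT (pst n x z) = tT p (x, z)) ∧
  ∀ y : Spc G n, (∀ k, p.2 (row y k) = false) → ∀ w : List Bool, w.length ≤ G.H n →
    wld (Function.update ω (.inl n) ((p, y) : Wn n × Spc G n)) w = OF OT y univ w

/-! ## The errors -/

/-- HYE: the special strings are removed one after the other. -/
def T_HYE : Prop := ∀ (G : Dat) (ω : Cfg G) (O : List Bool → Bool) (s : List Bool), LocA G.acc →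
  ¬ (ign G.acc (Spt ω) s O ↔ G.acc s O) → ∃ (n : ℕ) (k : Fin (G.r n)), G.n0 ≤ n ∧
    s.length < G.H n ∧ ¬ (ign G.acc (Lat ω n k) s (msk (ust (cfS ω n) k) O) ↔
      ign G.acc (Lat ω n k) s O)

/-- ERH: the errors of the quantum algorithm. -/
def T_ERH : Prop := ∀ (κ : ℕ → ℕ) (V : ∀ i, Machine (κ i)) (S : ℕ → ℕ → Sampler)
  (g : ℕ → ℕ → ℕ) (G : Dat) (ω : Cfg G) (i j d : ℕ), LocA G.acc →
  (∀ᶠ l in atTop, ∀ x O, l ≤ (inst (V i).c i x).length →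
    (x ∈ (V i).lang O ↔ G.acc (inst (V i).c i x) O)) →
  (∀ s : List Bool, G.n0 ≤ s.length → DcS ω s) →
  (∀ᶠ n in atTop, ∀ (k : Fin (G.r n)), ∀ m < G.H n, (S j m).hit (ext V d (wld ω))
    {y | inst (V i).c i y ∈ Enk ω n k} ≤ 1 / 2 ^ (n / 4)) →
  (∀ᶠ n in atTop, (∀ m < G.H n, g j m ≤ n / 32) ∧ G.r n ≤ 2 ^ (n / 32)) →
  ∀ᶠ m in atTop, (S j m).hit (ext V d (wld ω))
    {x | x ∈ Err (V i) i (wld ω) ∧ m ≤ x.length} ≤ 1 / 2 ^ g j m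

/-- EXS: the extended oracles. -/
def T_EXS : Prop := ∀ (κ : ℕ → ℕ) (V : ∀ i, Machine (κ i))
  (acc : List Bool → (List Bool → Bool) → Prop) (d n N : ℕ),
  (∀ i < d, ∀ x O, n ^ 2 ≤ (inst (V i).c i x).length →
    (x ∈ (V i).lang O ↔ acc (inst (V i).c i x) O)) → ExtP n N acc (ext V d)

/-! ## The choice of the parameters -/

/-- LBL: the labels. -/
def T_LBL : Prop := ∀ n r : ℕ, 1 ≤ r → r ≤ 2 ^ n → ∃ lab : Xn n → Fin r, ∀ k,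
  (2 : ℝ) ^ n ≤ 2 * r * (univ.filter fun x => lab x = k).card

/-- The conditions on the parameters `a0`, `a` of the stage `n` for the first `r` objects; `K` is the
depth of the formulas. -/
structure Prs (K r n a0 a : ℕ) (h g : ℕ → ℕ → ℕ) (C : ℕ → ℕ) (ε : ℕ → ℝ) : Prop where
  n64 : 64 ≤ n
  a1 : 1 ≤ a0
  aa : a0 < a
  len : 3 * n + 1 ≤ n ^ 2 ^ a0
  H1 : n ^ 2 ^ a0 ≤ 2 ^ (n / 32)
  H2 : (2 * n + 1) * n ^ 2 ^ a0 ≤ n ^ 2 ^ a
  prm : ∃ M ≤ 2 ^ (n / 16), PrS K n a M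
  hh : ∀ i < r, h i n + r + 1 ≤ n ^ 2 ^ a0
  sp : ∀ i < r, 1154 * ((C i + 1) * 2 ^ ((1 - ε i) * n)) ^ 2 * ((n : ℝ) ^ 2 ^ a0) ^ 2 / 4 ^ n +
    2 * (n : ℝ) ^ 2 ^ a0 / 2 ^ n ≤ 1 / 16
  gg : ∀ j < r, ∀ m < n ^ 2 ^ a0, 2 ^ g j m ≤ n ^ 2 ^ a ∧ g j m ≤ n / 32
  cd : r ^ 3 * n ^ 2 ^ a0 ≤ 2 ^ (n / 16)

/-- The hypotheses on the bounds. -/
def HGC (h g : ℕ → ℕ → ℕ) : Prop := (∀ i n, n ≤ h i n) ∧
  (∀ j, Monotone (g j) ∧ ∀ m, m ≤ 2 ^ g j m) ∧ ∀ i j a, ∀ᶠ n in atTop, g j (h i n ^ a) ^ a ≤ n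

/-- DG1: the parameters exist for large lengths. -/
def T_DG1 : Prop := ∀ (K r : ℕ) (h g : ℕ → ℕ → ℕ) (C : ℕ → ℕ) (ε : ℕ → ℝ), (∀ i, 0 < ε i) →
  HGC h g → ∀ᶠ n in atTop, ∃ a0 a, Prs K r n a0 a h g C ε

/-- DG2: the sequences of parameters. -/
def T_DG2 : Prop := ∀ (K : ℕ → ℕ) (h g : ℕ → ℕ → ℕ) (C : ℕ → ℕ) (ε : ℕ → ℝ), (∀ i, 0 < ε i) →
  HGC h g → ∃ (n0 : ℕ) (a0 aa c e Kx : ℕ → ℕ), Tendsto c atTop atTop ∧ Tendsto e atTop atTop ∧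
  ∀ n ≥ n0, Prs (Kx n) (c n) n (a0 n) (aa n) h g C ε ∧ (∀ l < n ^ 2 ^ aa n, K (e l) ≤ Kx n) ∧
    ∀ l, n ^ 2 ≤ l → c n ≤ e l

/-- FNG: the theorem. -/
def T_FNG : Prop := Main3

end Pool.Agent.H75.GG
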