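import Pool.Agent.H75.GG.Targets2
import Pool.Agent.H68.GS.STR

/-!
gsg_modules, FNG: the theorem
-/

set_option autoImplicit false

namespace Pool.Agent.H75.GG

open Finset Filter Pool.Agent.H6.NB Pool.Agent.H70.OQ Pool.Agent.H75.GS
open Pool.Agent.H68.GS (cmp cmp_hit)

/-- The universal machine. -/
def accF (Kf : ℕ → ℕ) (prog : ℕ → List Bool → List (List Bool) → DT) (e : ℕ → ℕ) :
    List Bool → (List Bool → Bool) → Prop :=
  fun s O => acck (Kf (e s.length)) (prog (e s.length)) s O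

/-- The conditions on the data. -/
theorem fng_okd (hFMA : T_FMA) (h g : ℕ → ℕ → ℕ) (C : ℕ → ℕ) (ε : ℕ → ℝ)
    (Kf : ℕ → ℕ) (prog : ℕ → List Bool → List (List Bool) → DT) (e : ℕ → ℕ)
    (hprog : ∀ r, Smallk (Kf r) (prog r)) (n0 : ℕ) (a0 aa c Kx : ℕ → ℕ)
    (hP : ∀ n ≥ n0, Prs (Kx n) (c n) n (a0 n) (aa n) h g C ε ∧
      ∀ l < n ^ 2 ^ aa n, Kf (e l) ≤ Kx n) (r : ℕ → ℕ) (hr : ∀ n ≥ n0, r n = n ^ 2 ^ a0 n)
    (lab : ∀ n, Xn n → Fin (r n)) (hlab : ∀ n k,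
      (2 : ℝ) ^ n ≤ 2 * r n * (univ.filter fun x => lab n x = k).card) :
    OKD ⟨accF Kf prog e, n0, r, lab, a0, aa⟩ Kx where
  loc := (hFMA Kf prog e hprog).1
  lab := hlab
  n64 := (hP n0 le_rfl).1.n64
  a1 n hn := (hP n hn).1.a1
  aa n hn := (hP n hn).1.aa
  len n hn := (hP n hn).1.len
  rr n hn := by
    have h1 := (hP n hn).1
    change n ≤ r n ∧ r n ≤ 2 ^ (n / 16) ∧ (2 * n + 1) * r n ≤ n ^ 2 ^ aa n
    rw [hr n hn]
    refine ⟨Nat.le_self_pow (by positivity) n, h1.H1.trans ?_, h1.H2⟩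
    exact Nat.pow_le_pow_right (by norm_num) (by omega)
  prm n hn := (hP n hn).1.prm
  fm n hn t ht := (hFMA Kf prog e hprog).2 n (aa n) t (Kx n) (by
    have := (hP n hn).1.n64
    change 64 ≤ n at this
    omega) ht (hP n hn).2

/-- The samplers of the stages. -/
theorem fng_oks (hEXS : T_EXS) (h g : ℕ → ℕ → ℕ) (C : ℕ → ℕ) (ε : ℕ → ℝ)
    (κ : ℕ → ℕ) (V : ∀ i, Machine (κ i)) (S : ℕ → ℕ → Sampler)
    (hS : ∀ j m, (S j m).alg.Short (2 ^ g j m) ∧ (S j m).alg.T ≤ 2 ^ g j m)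
    (Kf : ℕ → ℕ) (prog : ℕ → List Bool → List (List Bool) → DT) (e : ℕ → ℕ)
    (hacc : ∀ r, ∀ i ≤ r, ∀ x O, (x ∈ (V i).lang O ↔ acck (Kf r) (prog r) (inst (V i).c i x) O))
    (n0 : ℕ) (a0 aa c Kx : ℕ → ℕ)
    (hP : ∀ n ≥ n0, Prs (Kx n) (c n) n (a0 n) (aa n) h g C ε ∧ ∀ l, n ^ 2 ≤ l → c n ≤ e l)
    (r : ℕ → ℕ) (lab : ∀ n, Xn n → Fin (r n)) :
    OKS ⟨accF Kf prog e, n0, r, lab, a0, aa⟩
      (fun n => Fin (c n) × Fin (c n) × Fin (c n) × Fin (n ^ 2 ^ a0 n))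
      (fun n p => cmp (S p.2.1 p.2.2.2) (inst (V p.1).c p.1))
      fun n p => ext V p.2.2.1 := by
  intro n hn
  obtain ⟨h1, h2⟩ := hP n hn
  refine ⟨?_, fun p => ⟨⟨?_, ?_⟩, ?_⟩⟩
  · simp only [Fintype.card_prod, Fintype.card_fin]
    refine le_trans (le_of_eq ?_) h1.cd
    ring
  · intro z w hw
    exact ((hS p.2.1 p.2.2.2).1 z w hw).trans (h1.gg _ p.2.1.2 _ p.2.2.2.2).1
  · change (S p.2.1 p.2.2.2).alg.T ^ 2 ≤ _
    refine (Nat.pow_le_pow_left (hS p.2.1 p.2.2.2).2 2).trans ?_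
    rw [← pow_mul]
    refine Nat.pow_le_pow_right (by norm_num) ?_
    have := (h1.gg _ p.2.1.2 _ p.2.2.2.2).2
    omega
  · refine hEXS κ V _ p.2.2.1 n _ fun i hi x O hl => ?_
    have h3 : i ≤ e (inst (V i).c i x).length := by
      have h4 := h2 _ hl
      have h5 := p.2.2.1.2
      omega
    exact hacc _ i h3 x O

/-- The algorithms of the stages. -/
theorem fng_okq (h g : ℕ → ℕ → ℕ) (C : ℕ → ℕ) (ε : ℕ → ℝ) (Q : ℕ → List Bool → List Bool → QAlg)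
    (hQ : ∀ i α x, (Q i α x).Short (h i x.length) ∧
      ((Q i α x).T : ℝ) ≤ C i * 2 ^ ((1 - ε i) * x.length))
    (acc : List Bool → (List Bool → Bool) → Prop) (n0 : ℕ) (a0 aa c Kx : ℕ → ℕ)
    (hP : ∀ n ≥ n0, Prs (Kx n) (c n) n (a0 n) (aa n) h g C ε ∧ 1 ≤ c n)
    (r : ℕ → ℕ) (hr : ∀ n ≥ n0, r n = n ^ 2 ^ a0 n) (lab : ∀ n, Xn n → Fin (r n))
    (B : ℕ → ℕ) (hB : ∀ n ≥ n0, B n + c n + 1 ≤ n ^ 2 ^ a0 n) (Ws : ℕ → List (List Bool))
    (hWs : ∀ n, (Ws n).length ≤ 2 ^ (B n + 1)) :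
    OKQ ⟨acc, n0, r, lab, a0, aa⟩ (fun n => Fin (c n) × Fin (Ws n).length)
      fun n j x => Q j.1 ((Ws n).get j.2) x := by
  intro n hn
  obtain ⟨h1, h2⟩ := hP n hn
  refine ⟨?_, ?_⟩
  · simp only [Fintype.card_prod, Fintype.card_fin]
    change _ ≤ 2 ^ r n
    rw [hr n hn]
    calc c n * (Ws n).length ≤ 2 ^ c n * 2 ^ (B n + 1) :=
          Nat.mul_le_mul Nat.lt_two_pow_self.le (hWs n)
      _ = 2 ^ (B n + c n + 1) := by ring
      _ ≤ _ := Nat.pow_le_pow_right (by norm_num) (hB n hn)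
  · obtain ⟨i, hi, hmax⟩ := Finset.exists_max_image (range (c n))
      (fun i => ((C i : ℝ) + 1) * 2 ^ ((1 - ε i) * n)) ⟨0, mem_range.2 h2⟩
    refine ⟨((C i : ℝ) + 1) * 2 ^ ((1 - ε i) * n), by positivity, ?_, fun j x hx => ⟨?_, ?_⟩⟩
    · have h3 := h1.sp i (mem_range.1 hi)
      change 1154 * _ * (r n : ℝ) ^ 2 / 4 ^ n + 2 * (r n : ℝ) / 2 ^ n ≤ 1 / 16
      rw [hr n hn]
      push_cast
      exact h3
    · intro z w hw
      refine ((hQ j.1 _ x).1 z w hw).trans ?_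
      have h3 := h1.hh j.1 j.1.2
      rw [hx]
      change _ ≤ n ^ 2 ^ a0 n
      omega
    · refine (hQ j.1 _ x).2.trans ?_
      rw [hx]
      refine le_trans ?_ (hmax j.1 (mem_range.2 j.1.2))
      exact mul_le_mul_of_nonneg_right (by linarith) (by positivity)

/-- FNG. -/
theorem fng (hWLM : T_WLM) (hUNX : T_UNX) (hDG2 : T_DG2) (hFMA : T_FMA) (hLBL : T_LBL)
    (hEXS : T_EXS) (hGLB : T_GLB) (hUNQ : T_UNQ) (hERH : T_ERH)
    (hFIS : Pool.Agent.H6.NB.T_FIS) : Main3 := by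
  classical
  refine ⟨hWLM, ?_⟩
  intro κ V h g Q S hQ hS hhg
  choose C ε hε hQ2 using fun i => (hQ i).2
  choose Kf prog hprog hacc using fun r => hUNX κ V r
  obtain ⟨n1, a0, aa, c, e, Kx, hc, he, hP⟩ := hDG2 Kf h g C ε hε
    ⟨fun i => (hQ i).1, fun j => ⟨(hS j).1, fun m => ((hS j).2 m).1⟩, hhg⟩
  obtain ⟨n2, hn2⟩ := eventually_atTop.1 (hc.eventually_ge_atTop 1)
  obtain ⟨n0, hn01, hn02⟩ : ∃ n0, n1 ≤ n0 ∧ n2 ≤ n0 := ⟨max n1 n2, le_max_left _ _, le_max_right _ _⟩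
  have hP1 : ∀ n ≥ n0, Prs (Kx n) (c n) n (a0 n) (aa n) h g C ε := fun n hn =>
    (hP n (hn01.trans hn)).1
  have hP2 : ∀ n ≥ n0, ∀ l < n ^ 2 ^ aa n, Kf (e l) ≤ Kx n := fun n hn =>
    (hP n (hn01.trans hn)).2.1
  have hP3 : ∀ n ≥ n0, ∀ l, n ^ 2 ≤ l → c n ≤ e l := fun n hn => (hP n (hn01.trans hn)).2.2
  have hc1 : ∀ n ≥ n0, 1 ≤ c n := fun n hn => hn2 n (hn02.trans hn)
  obtain ⟨r, hrdef⟩ : ∃ r : ℕ → ℕ, r = fun n => if n0 ≤ n then n ^ 2 ^ a0 n else 1 := ⟨_, rfl⟩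
  have hr : ∀ n ≥ n0, r n = n ^ 2 ^ a0 n := fun n hn => by
    rw [hrdef]
    simp only
    rw [if_pos hn]
  have hr1 : ∀ n, 1 ≤ r n := by
    intro n
    by_cases hn : n0 ≤ n
    · rw [hr n hn]
      have := (hP1 n hn).n64
      exact Nat.one_le_pow _ _ (by omega)
    · rw [hrdef]
      simp only
      rw [if_neg hn]
  have hr2 : ∀ n, r n ≤ 2 ^ n := by
    intro n
    by_cases hn : n0 ≤ n
    · rw [hr n hn]
      exact (hP1 n hn).H1.trans (Nat.pow_le_pow_right (by norm_num) (by omega))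
    · rw [hrdef]
      simp only
      rw [if_neg hn]
      exact Nat.one_le_two_pow
  choose lab hlab using fun n => hLBL n (r n) (hr1 n) (hr2 n)
  choose WsF hW1 hW2 using hFIS.1
  obtain ⟨B, hBdef⟩ : ∃ B : ℕ → ℕ, B = fun n => (range (c n)).sup fun i => h i n := ⟨_, rfl⟩
  have hB1 : ∀ n, ∀ i < c n, h i n ≤ B n := fun n i hi => by
    rw [hBdef]
    exact Finset.le_sup (f := fun i => h i n) (mem_range.2 hi)
  have hB2 : ∀ n ≥ n0, B n + c n + 1 ≤ n ^ 2 ^ a0 n := by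
    intro n hn
    have h1 := (hP1 n hn).hh
    have h2 : B n ≤ n ^ 2 ^ a0 n - (c n + 1) := by
      rw [hBdef]
      refine Finset.sup_le fun i hi => ?_
      have := h1 i (mem_range.1 hi)
      omega
    have h3 := h1 0 (hc1 n hn)
    omega
  have hOKD := fng_okd hFMA h g C ε Kf prog e hprog n0 a0 aa c Kx
    (fun n hn => ⟨hP1 n hn, hP2 n hn⟩) r hr lab hlab
  have hOKS := fng_oks hEXS h g C ε κ V S (fun j m => ((hS j).2 m).2) Kf prog e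
    (fun r i hi x O => hacc r i hi x O) n0 a0 aa c Kx (fun n hn => ⟨hP1 n hn, hP3 n hn⟩) r lab
  have hOKQ := fng_okq h g C ε Q hQ2 (accF Kf prog e) n0 a0 aa c Kx
    (fun n hn => ⟨hP1 n hn, hc1 n hn⟩) r hr lab B hB2 (fun n => WsF (B n)) fun n => hW1 (B n)
  obtain ⟨ω, hω1, hω2, hω3⟩ := hGLB _ Kx hOKD _ _ _ hOKS _ _ hOKQ
  refine ⟨wld ω, (hUNQ _ ω hOKD.loc).1, ?_, ?_⟩
  · intro i
    filter_upwards [hc.eventually_gt_atTop i, eventually_ge_atTop n0] with n hi hn α hα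
    obtain ⟨k, hk⟩ := List.mem_iff_get.1 (hW2 (B n) α (hα.trans (hB1 n i hi)))
    by_contra hcon
    push Not at hcon
    refine hω1 n hn ⟨(⟨i, hi⟩, k), fun x hx => ?_⟩
    change Correct (Q i ((WsF (B n)).get k) x) _ _ x
    rw [hk]
    exact hcon x hx
  · intro i j d
    refine hERH κ V S g _ ω i j d hOKD.loc ?_ hω3 ?_ ?_
    · obtain ⟨l0, hl0⟩ := eventually_atTop.1 (he.eventually_ge_atTop i)
      filter_upwards [eventually_ge_atTop l0] with l hl x O hx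
      exact hacc _ i (hl0 _ (hl.trans hx)) x O
    · filter_upwards [hc.eventually_gt_atTop i, hc.eventually_gt_atTop j,
        hc.eventually_gt_atTop d, eventually_ge_atTop n0] with n hi hj hd hn k m hm
      have h1 := hω2 n hn k
      unfold BdH at h1
      push Not at h1
      have h2 := h1 (⟨i, hi⟩, ⟨j, hj⟩, ⟨d, hd⟩, ⟨m, hm⟩)
      exact (cmp_hit (S j m) (inst (V i).c i) (ext V d (wld ω)) _ _ fun y hy => hy).trans h2
    · filter_upwards [hc.eventually_gt_atTop j, eventually_ge_atTop n0] with n hj hn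
      refine ⟨fun m hm => ((hP1 n hn).gg j hj m hm).2, ?_⟩
      change r n ≤ _
      rw [hr n hn]
      exact (hP1 n hn).H1

end Pool.Agent.H75.GG
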