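import Pool.Agent.H75.GG.Targets2

/-!
gsg_modules, HID: the samplers rarely find an error
-/

set_option autoImplicit false

namespace Pool.Agent.H75.GG

open Finset Filter Pool.Agent.H6.NB Pool.Agent.H70.OQ Pool.Agent.H75.GS

/-- Resampling of one coordinate. -/
theorem hid_res {I : Type} [Fintype I] [DecidableEq I] {A : I → Type} [∀ i, Fintype (A i)] (k : I)
    (f : (∀ i, A i) → ℝ) :
    ∑ y, ∑ c : A k, f (Function.update y k c) = Fintype.card (A k) * ∑ y, f y := by
  have hinv : Function.Involutive (fun q : (∀ i, A i) × A k =>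
      ((Function.update q.1 k q.2, q.1 k) : (∀ i, A i) × A k)) := by
    intro q
    refine Prod.ext ?_ ?_
    · simp
    · simp
  calc ∑ y, ∑ c : A k, f (Function.update y k c) =
        ∑ q : (∀ i, A i) × A k, f (Function.update q.1 k q.2) :=
        (Fintype.sum_prod_type (fun q : (∀ i, A i) × A k => f (Function.update q.1 k q.2))).symm
    _ = ∑ q : (∀ i, A i) × A k, f q.1 :=
        Equiv.sum_comp hinv.toPerm (fun q : (∀ i, A i) × A k => f q.1)
    _ = ∑ c : A k, ∑ y, f y := by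
        rw [Fintype.sum_prod_type_right]
    _ = Fintype.card (A k) * ∑ y, f y := by
        rw [sum_const, card_univ, nsmul_eq_mul]

/-- The event in the language of one stage. -/
def EvH {G : Dat} (ι : ℕ → Type) (S : ∀ n, ι n → Sampler)
    (Eo : ∀ n, ι n → (List Bool → Bool) → List Bool → Bool) (n : ℕ)
    (A A1 : List Bool → (List Bool → Bool) → Prop) (σ₀ : List Bool → Bool)
    (κ : Om n (2 ^ G.aa n) → Bool) (P : Blk (fun s : Om n (2 ^ G.aa n) => ns s.1) fun s => qs s.1)
    (q : Wn n) (x : Xn n) : Prop :=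
  ∃ i, 1 / 2 ^ (n / 4) < (S n i).hit (Eo n i (wX n (G.aa n) (G.a0 n) A σ₀ q κ P x))
    {s | s.length < n ^ 2 ^ G.a0 n ∧ ¬ (A1 s (msk (pst n x (q.1 x))
      (wX n (G.aa n) (G.a0 n) A σ₀ q κ P x)) ↔ A1 s (wX n (G.aa n) (G.a0 n) A σ₀ q κ P x))}

/-- The configuration with the other special rows. -/
theorem hid_jn {G : Dat} {n : ℕ} (k : Fin (G.r n)) (p : Wn n) (y : Spc G n)
    (c : {x : Xn n // G.lab n x = k} × Ys n 0) :
    jn (Function.update y k c) (univ.erase k) p =
      jR ((univ.erase k).image (row y)) (fun x => (y (G.lab n x)).2) p := by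
  have hrow : ∀ k' ≠ k, row (Function.update y k c) k' = row y k' := by
    intro k' hk'
    unfold row
    rw [Function.update_of_ne hk']
  have hR : (univ.erase k).image (row (Function.update y k c)) =
      (univ.erase k).image (row y) :=
    image_congr fun k' hk' => hrow k' (by simpa using hk')
  unfold jn
  rw [hR]
  unfold jR
  refine Prod.ext (funext fun x => ?_) rfl
  simp only
  by_cases hx : x ∈ (univ.erase k).image (row y)
  · rw [if_pos hx, if_pos hx]
    obtain ⟨k', hk', rfl⟩ := mem_image.1 hx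
    have h1 : G.lab n (row y k') = k' := (y k').1.2
    have h2 : G.lab n (row y k') ≠ k := by rw [h1]; exact (mem_erase.1 hk').1
    rw [Function.update_of_ne h2]
  · rw [if_neg hx, if_neg hx]

/-- The event of a configuration is the event of one stage. -/
theorem hid_key (hSPL : T_SPL) (hOFF : T_OFF) {G : Dat} (ω : Cfg G) {n : ℕ} (hn : G.n0 ≤ n)
    (k : Fin (G.r n)) (ι : ℕ → Type) (S : ∀ n, ι n → Sampler)
    (Eo : ∀ n, ι n → (List Bool → Bool) → List Bool → Bool) (p p0 : Wn n) (y : Spc G n)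
    (c : {x : Xn n // G.lab n x = k} × Ys n 0) (κ κ0 : Om n (2 ^ G.aa n) → Bool)
    (P P0 : Blk (fun s : Om n (2 ^ G.aa n) => ns s.1) fun s => qs s.1) :
    BdH ι S Eo n k (put ω n p (Function.update y k c) κ P) ↔
      EvH (G := G) ι S Eo n (ign G.acc (Oth (put ω n p0 y κ0 P0) n k))
        (ign G.acc (Lat (put ω n p0 y κ0 P0) n k)) (seed ω) κ P
        (bs (jR ((univ.erase k).image (row y)) (fun x => (y (G.lab n x)).2) p) c.1.1 c.2)
        c.1.1 := by
  have hOff := hOFF G ω n k p p0 (Function.update y k c) y κ κ0 P P0 hn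
  obtain ⟨h1, h2, h3, -⟩ := hOff
  obtain ⟨h2a, h2b⟩ := h2 fun k' hk' => Function.update_of_ne hk' _ _
  have h4 := hSPL G ω n k p (Function.update y k c) κ P hn
  have e1 : row (Function.update y k c) k = c.1.1 := by
    unfold row
    rw [Function.update_self]
  have e2 : ((Function.update y k c : Spc G n) k).2 = c.2 := by rw [Function.update_self]
  have e4 : ust (Function.update y k c) k = pst n c.1.1 c.2 := by
    unfold ust
    rw [e1, e2]
  have e3 : (bs (jR ((univ.erase k).image (row y)) (fun x => (y (G.lab n x)).2) p) c.1.1 c.2).1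
      c.1.1 = c.2 := by
    unfold bs
    simp
  have hw : wld (put ω n p (Function.update y k c) κ P) =
      wX n (G.aa n) (G.a0 n) (ign G.acc (Oth (put ω n p0 y κ0 P0) n k)) (seed ω)
        (bs (jR ((univ.erase k).image (row y)) (fun x => (y (G.lab n x)).2) p) c.1.1 c.2) κ P
        c.1.1 := by
    unfold wld wX
    rw [h1, h4, h2a, e1, e2, e3, hid_jn]
  unfold BdH EvH
  have hE : Enk (put ω n p (Function.update y k c) κ P) n k = {s | s.length < n ^ 2 ^ G.a0 n ∧
      ¬ (ign G.acc (Lat (put ω n p0 y κ0 P0) n k) s (msk (pst n c.1.1 c.2)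
        (wld (put ω n p (Function.update y k c) κ P))) ↔
        ign G.acc (Lat (put ω n p0 y κ0 P0) n k) s
          (wld (put ω n p (Function.update y k c) κ P)))} := by
    unfold Enk
    rw [h3, h2b, e4]
    rfl
  rw [hE, hw, e3]

/-- Exchange of four sums. -/
theorem hid_comm {α β γ δ : Type} [Fintype α] [Fintype β] [Fintype γ] [Fintype δ]
    (f : α → β → γ → δ → ℝ) :
    ∑ a, ∑ b, ∑ c, ∑ d, f a b c d = ∑ c, ∑ d, ∑ b, ∑ a, f a b c d := by
  rw [sum_comm]
  calc ∑ b, ∑ a, ∑ c, ∑ d, f a b c d = ∑ b, ∑ c, ∑ a, ∑ d, f a b c d :=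
        sum_congr rfl fun b _ => sum_comm
    _ = ∑ c, ∑ b, ∑ a, ∑ d, f a b c d := sum_comm
    _ = ∑ c, ∑ b, ∑ d, ∑ a, f a b c d :=
        sum_congr rfl fun c _ => sum_congr rfl fun b _ => sum_comm
    _ = ∑ c, ∑ d, ∑ b, ∑ a, f a b c d := sum_congr rfl fun c _ => sum_comm

open Classical in
/-- The sum over the special row. -/
theorem hid_sum {G : Dat} {n : ℕ} (k : Fin (G.r n)) (F : Xn n → Ys n 0 → ℝ) :
    ∑ c : {x : Xn n // G.lab n x = k} × Ys n 0, F c.1.1 c.2 =
      ∑ x ∈ univ.filter (fun x => G.lab n x = k), ∑ z, F x z := by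
  rw [Fintype.sum_prod_type]
  exact (sum_subtype (univ.filter fun x => G.lab n x = k) (fun x => by simp)
    fun x => ∑ z, F x z).symm

open Classical in
/-- The number of pairs. -/
theorem hid_card {n : ℕ} (L : Finset (Xn n)) (b : Wn n → Xn n → Bool) (E : Wn n → Xn n → Prop) :
    ∑ p, ∑ x ∈ L.filter (fun x => b p x = false), ic (E p x) ≤
      ((univ.filter fun c : Wn n × Xn n => b c.1 c.2 = false ∧ E c.1 c.2).card : ℝ) := by
  have e : ((univ.filter fun c : Wn n × Xn n => b c.1 c.2 = false ∧ E c.1 c.2).card : ℝ) =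
      ∑ p, ∑ x, (if b p x = false ∧ E p x then (1 : ℝ) else 0) := by
    rw [card_filter]
    push_cast
    exact Fintype.sum_prod_type
      (fun c : Wn n × Xn n => if b c.1 c.2 = false ∧ E c.1 c.2 then (1 : ℝ) else 0)
  rw [e]
  refine sum_le_sum fun p _ => ?_
  rw [sum_filter]
  have h0 : ∀ x, (0 : ℝ) ≤ if b p x = false then ic (E p x) else 0 := by
    intro x
    unfold ic
    split_ifs <;> norm_num
  calc ∑ x ∈ L, (if b p x = false then ic (E p x) else 0) ≤
        ∑ x, (if b p x = false then ic (E p x) else 0) :=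
        sum_le_sum_of_subset_of_nonneg (subset_univ L) fun x _ _ => h0 x
    _ ≤ _ := by
        refine sum_le_sum fun x _ => ?_
        unfold ic
        by_cases h1 : b p x = false
        · by_cases h2 : E p x
          · rw [if_pos h1, if_pos h2, if_pos ⟨h1, h2⟩]
          · rw [if_pos h1, if_neg h2, if_neg fun h => h2 h.2]
        · rw [if_neg h1, if_neg fun h => h1 h.1]

theorem hid_dec {α : Type} (s : Finset α) (p : α → Prop) (i1 i2 : DecidablePred p) :
    (@filter α p i1 s).card = (@filter α p i2 s).card := by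
  rw [Subsingleton.elim i1 i2]

open Classical in
/-- One stage. -/
theorem hid_stp (hSTP : T_STP) (G : Dat) (K n M : ℕ) (h8 : 8 ≤ n) (h1 : 1 ≤ G.a0 n)
    (h2 : G.a0 n < G.aa n) (h3 : 3 * n + 1 ≤ n ^ 2 ^ G.a0 n) (h4 : PrS K n (G.aa n) M)
    (h5 : M ≤ 2 ^ (n / 16)) [Fintype (Om n (2 ^ G.aa n))]
    (A A1 A2 : List Bool → (List Bool → Bool) → Prop) (σ₀ : List Bool → Bool)
    (R : Finset (Xn n)) (zr : Xn n → Ys n 0) (hA : LocA A) (hA1 : LocA A1) (hA2 : LocA A2)
    (hF : ∀ t, n ^ 2 ^ G.aa n ≤ t ^ 2 → FmM n (G.aa n) t K A)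
    (hF1 : ∀ t, n ^ 2 ^ G.aa n ≤ t ^ 2 → FmM n (G.aa n) t K A1)
    (hF2 : ∀ t, n ^ 2 ^ G.aa n ≤ t ^ 2 → FmM n (G.aa n) t K A2)
    (hR : (2 * n + 1) * R.card ≤ n ^ 2 ^ G.aa n)
    (ι : ℕ → Type) [∀ n, Fintype (ι n)] (S : ∀ n, ι n → Sampler)
    (Eo : ∀ n, ι n → (List Bool → Bool) → List Bool → Bool)
    (hι : Fintype.card (ι n) ≤ 2 ^ (n / 16))
    (hS : ∀ i, (S n i).alg.Short (n ^ 2 ^ G.aa n) ∧ (S n i).alg.T ^ 2 ≤ 2 ^ (n / 8))
    (hE : ∀ i, ExtP n (n ^ 2 ^ G.aa n) A2 (Eo n i)) :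
    ∑ κ, ∑ P, WtB κ P * ((univ.filter fun c : Wn n × Xn n => (jR R zr c.1).2 c.2 = false ∧
      EvH (G := G) ι S Eo n A A1 σ₀ κ P (jR R zr c.1) c.2).card : ℝ) ≤
    2 ^ (n / 2 + 5) * (Fintype.card (Wn n) * 2 ^ Fintype.card (Om n (2 ^ G.aa n))) := by
  unfold EvH
  refine le_trans (le_of_eq ?_) (hSTP K n (G.aa n) (G.a0 n) M h8 h1 h2 h3 h4 h5 A A1 A2 σ₀ R zr
    hA hA1 hA2 hF hF1 hF2 hR (ι n) (S n) (Eo n) hι hS hE)
  refine sum_congr rfl fun κ _ => sum_congr rfl fun P _ => ?_
  exact congrArg (fun m : ℕ => WtB κ P * (m : ℝ)) (hid_dec _ _ _ _)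

/-- HID. -/
theorem hid (hSTP : T_STP) (hLOC : T_LOC) (hTRL : T_TRL) (hSPL : T_SPL) (hOFF : T_OFF)
    (hLCG : T_LCG) (hFMP : T_FMP) (hMUP : Pool.Agent.H6.NB.T_MUP) (hFIS : T_FIS) : T_HID := by
  classical
  intro G K hG ι _ S Eo hS n hn k T hT ω
  have hFin : Finite (Om n (2 ^ G.aa n)) := hFIS.2.1 n _
  let inst : Fintype (Om n (2 ^ G.aa n)) := Fintype.ofFinite _
  have h64 : 64 ≤ n := hG.n64.trans hn
  obtain ⟨hr1, hr2, hr3⟩ := hG.rr n hn
  obtain ⟨M, hM, hPrS⟩ := hG.prm n hn
  rw [hTRL G ω n T hT (fun ω' => ic (BdH ι S Eo n k ω'))]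
  set Φ : Spc G n → ℝ := fun y => ∑ p : Wn n, ∑ κ, ∑ P, WtB κ P *
    ic (BdH ι S Eo n k (put ω n p y κ P)) with hΦ
  rw [sum_comm, ← hΦ]
  -- the bound for fixed other rows
  have hbd : ∀ y : Spc G n, ∑ c, Φ (Function.update y k c) ≤
      2 * Fintype.card (Ys n 0) * (2 ^ (n / 2 + 5) *
        (Fintype.card (Wn n) * 2 ^ Fintype.card (Om n (2 ^ G.aa n)))) := by
    intro y
    have p0 : Wn n := (fun _ _ => false, fun _ => false)
    have κ0 : Om n (2 ^ G.aa n) → Bool := fun _ => false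
    have P0 : Blk (fun s : Om n (2 ^ G.aa n) => ns s.1) fun s => qs s.1 := fun _ _ _ => false
    obtain ⟨-, hl1, hl2, -, hl3, hl4⟩ := hLCG G (put ω n p0 y κ0 P0) hG.loc
    set R := (univ.erase k).image (row y) with hR
    set zr : Xn n → Ys n 0 := fun x => (y (G.lab n x)).2 with hzr
    set L : Finset (Xn n) := univ.filter fun x => G.lab n x = k with hL
    set E : (Om n (2 ^ G.aa n) → Bool) → (Blk (fun s : Om n (2 ^ G.aa n) => ns s.1)
        fun s => qs s.1) → Wn n → Xn n → Prop := fun κ P => EvH (G := G) ι S Eo n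
      (ign G.acc (Oth (put ω n p0 y κ0 P0) n k)) (ign G.acc (Lat (put ω n p0 y κ0 P0) n k))
      (seed ω) κ P with hE
    have hWt : ∀ κ P, 0 ≤ WtB (Ω := Om n (2 ^ G.aa n)) (nn := fun s => ns s.1)
        (qb := fun s => qs s.1) κ P := fun κ P =>
      prod_nonneg fun s _ => prod_nonneg fun i _ => (hMUP _ _).1 _
    have hdis : Disjoint L R := by
      rw [disjoint_left]
      intro x hx hxR
      obtain ⟨k', hk', rfl⟩ := mem_image.1 hxR
      have h1 : G.lab n (row y k') = k' := (y k').1.2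
      have h2 : G.lab n (row y k') = k := (mem_filter.1 hx).2
      exact (mem_erase.1 hk').1 (h1.symm.trans h2)
    have h1 : ∑ c, Φ (Function.update y k c) = ∑ κ, ∑ P, WtB κ P * (2 * Fintype.card (Ys n 0) *
        ∑ p : Wn n, ∑ x ∈ L.filter (fun x => (jR R zr p).2 x = false),
          ic (E κ P (jR R zr p) x)) := by
      calc ∑ c, Φ (Function.update y k c) = ∑ c : {x : Xn n // G.lab n x = k} × Ys n 0,
            ∑ p : Wn n, ∑ κ, ∑ P, WtB κ P * ic (E κ P (bs (jR R zr p) c.1.1 c.2) c.1.1) := by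
            refine sum_congr rfl fun c _ => sum_congr rfl fun p _ => sum_congr rfl fun κ _ =>
              sum_congr rfl fun P _ => ?_
            rw [propext (hid_key hSPL hOFF ω hn k ι S Eo p p0 y c κ κ0 P P0)]
        _ = ∑ κ, ∑ P, ∑ p : Wn n, ∑ c : {x : Xn n // G.lab n x = k} × Ys n 0,
            WtB κ P * ic (E κ P (bs (jR R zr p) c.1.1 c.2) c.1.1) := hid_comm _
        _ = _ := by
            refine sum_congr rfl fun κ _ => sum_congr rfl fun P _ => ?_
            rw [← hLOC n L R zr (fun q x => ic (E κ P q x)) hdis, mul_sum]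
            refine sum_congr rfl fun p _ => ?_
            rw [← mul_sum, hid_sum k fun x z => ic (E κ P (bs (jR R zr p) x z) x)]
    have h2 := hid_stp hSTP G (K n) n M (by omega) (hG.a1 n hn) (hG.aa n hn)
      (hG.len n hn) hPrS hM (ign G.acc (Oth (put ω n p0 y κ0 P0) n k))
      (ign G.acc (Lat (put ω n p0 y κ0 P0) n k)) G.acc (seed ω) R zr (hl2 n k) (hl1 n k) hG.loc
      (fun t ht => (hFMP G.acc _ (hl4 n k)).2 n (G.aa n) t (K n) (by omega) (by
        rcases Nat.eq_zero_or_pos t with h0 | h0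
        · subst h0
          have : 0 < n ^ 2 ^ G.aa n := Nat.pow_pos (by omega)
          omega
        · exact h0) (hG.fm n hn t ht))
      (fun t ht => (hFMP G.acc _ (hl3 n k)).2 n (G.aa n) t (K n) (by omega) (by
        rcases Nat.eq_zero_or_pos t with h0 | h0
        · subst h0
          have : 0 < n ^ 2 ^ G.aa n := Nat.pow_pos (by omega)
          omega
        · exact h0) (hG.fm n hn t ht))
      (fun t ht => hG.fm n hn t ht)
      (by
        refine le_trans (Nat.mul_le_mul_left _ ?_) hr3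
        refine card_image_le.trans ?_
        refine (card_le_univ _).trans ?_
        rw [Fintype.card_fin])
      ι S Eo (hS n hn).1 (fun i => ((hS n hn).2 i).1) fun i => ((hS n hn).2 i).2
    rw [h1]
    calc _ ≤ ∑ κ, ∑ P, WtB κ P * (2 * Fintype.card (Ys n 0) *
          ((univ.filter fun c : Wn n × Xn n => (jR R zr c.1).2 c.2 = false ∧
            E κ P (jR R zr c.1) c.2).card : ℝ)) := by
          refine sum_le_sum fun κ _ => sum_le_sum fun P _ => ?_
          refine mul_le_mul_of_nonneg_left (mul_le_mul_of_nonneg_left ?_ (by positivity)) (hWt κ P)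
          exact hid_card L (fun p x => (jR R zr p).2 x) fun p x => E κ P (jR R zr p) x
      _ = 2 * Fintype.card (Ys n 0) * ∑ κ, ∑ P, WtB κ P *
          ((univ.filter fun c : Wn n × Xn n => (jR R zr c.1).2 c.2 = false ∧
            E κ P (jR R zr c.1) c.2).card : ℝ) := by
          simp only [mul_sum]
          refine sum_congr rfl fun κ _ => sum_congr rfl fun P _ => ?_
          ring
      _ ≤ _ := mul_le_mul_of_nonneg_left h2 (by positivity)
  have hres := hid_res (A := fun k : Fin (G.r n) => {x : Xn n // G.lab n x = k} × Ys n 0) k Φ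
  have hsum : (Fintype.card ({x : Xn n // G.lab n x = k} × Ys n 0) : ℝ) * ∑ y, Φ y ≤
      Fintype.card (Spc G n) * (2 * Fintype.card (Ys n 0) * (2 ^ (n / 2 + 5) *
        (Fintype.card (Wn n) * 2 ^ Fintype.card (Om n (2 ^ G.aa n))))) := by
    rw [← hres]
    refine (sum_le_sum fun y _ => hbd y).trans (le_of_eq ?_)
    rw [sum_const, card_univ, nsmul_eq_mul]
  have hlab := hG.lab n k
  have hc1 : Fintype.card {x : Xn n // G.lab n x = k} =
      (univ.filter fun x : Xn n => G.lab n x = k).card := Fintype.card_subtype _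
  rw [Fintype.card_prod, hc1] at hsum
  have hY : (0 : ℝ) < Fintype.card (Ys n 0) := by exact_mod_cast Fintype.card_pos
  rw [one_div, inv_mul_eq_div]
  refine div_le_of_le_mul₀ (by positivity) (by positivity) ?_
  rw [div_mul_eq_mul_div, le_div_iff₀ (by positivity)]
  rcases le_total (∑ y, Φ y) 0 with h0 | h0
  · exact (mul_nonpos_of_nonpos_of_nonneg h0 (by positivity)).trans (by positivity)
  push_cast at hsum ⊢
  have h3 : ((univ.filter fun x : Xn n => G.lab n x = k).card : ℝ) * ∑ y, Φ y ≤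
      Fintype.card (Spc G n) * (2 * (2 ^ (n / 2 + 5) *
        (Fintype.card (Wn n) * 2 ^ Fintype.card (Om n (2 ^ G.aa n))))) := by
    refine le_of_mul_le_mul_left ?_ hY
    refine le_trans (le_of_eq ?_) (hsum.trans (le_of_eq ?_)) <;> ring
  calc (∑ y, Φ y) * 2 ^ n ≤ (∑ y, Φ y) * (2 * G.r n *
        (univ.filter fun x : Xn n => G.lab n x = k).card) := mul_le_mul_of_nonneg_left hlab h0
    _ = 2 * G.r n * ((univ.filter fun x : Xn n => G.lab n x = k).card * ∑ y, Φ y) := by ring
    _ ≤ 2 * G.r n * (Fintype.card (Spc G n) * (2 * (2 ^ (n / 2 + 5) *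
        (Fintype.card (Wn n) * 2 ^ Fintype.card (Om n (2 ^ G.aa n)))))) :=
        mul_le_mul_of_nonneg_left h3 (by positivity)
    _ = _ := by
        have e : (Fintype.card (Wn n × Spc G n) : ℝ) =
            Fintype.card (Wn n) * Fintype.card (Spc G n) := by
          rw [Fintype.card_prod (Wn n) (Spc G n)]
          push_cast
          rfl
        rw [e, show n / 2 + 7 = n / 2 + 5 + 2 by omega, pow_add _ (n / 2 + 5)]
        ring

end Pool.Agent.H75.GG
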