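import Pool.Agent.H75.GG.Targets

/-!
gsg_modules, SNS: it is rare that many rows matter
-/

set_option autoImplicit false

namespace Pool.Agent.H75.GG

open Finset Filter Pool.Agent.H6.NB Pool.Agent.H70.OQ Pool.Agent.H75.GS

/-- The sum over the two machines. -/
theorem sns_sum {Ω : Type} [Fintype Ω] (nn qb : Ω → ℕ) (L : ℝ) :
    ∑ s : Ω ⊕ Ω, (nn2 nn s : ℝ) * (L / √(2 ^ qb2 qb s)) = ∑ s, (nn s : ℝ) * (L / √(2 ^ qb s)) := by
  rw [Fintype.sum_sum_type]
  have h : ∑ s : Ω, (nn2 nn (.inr s) : ℝ) * (L / √(2 ^ qb2 qb (.inr s))) = 0 :=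
    sum_eq_zero fun s _ => by simp [nn2]
  rw [h, add_zero]
  rfl

/-- SNS. -/
theorem sns (hGXP : T_GXP) (hFIQ : T_FIQ) (hCLE : T_CLE) (hBSJ : T_BSJ) (hMRG : T_MRG)
    (hCHP : T_CHP) (hORC : T_ORC) (hMSK : T_MSK) (hSYT : T_SYT) (hFIS : T_FIS) (hNUM : T_NUM)
    (hL12 : T_L12) : T_SNS := by
  classical
  intro K n a a0 M hn8 ha0 haa hlen hPrS inst A B σ₀ R zr hLA hLB hFA hFB hR
  obtain ⟨t, S', w', w0, r0, k0, w, r, k, δ, δm, ht1, hnt, hw0, hk0, hkap, hδ0, hPrm, hδm, hδ16,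
    h2S, htS, hKM, hM1, hMS, hbig, hw1, hL⟩ := hPrS
  obtain ⟨D, hSD, hD⟩ := hFA t hnt (orc A σ₀)
  obtain ⟨D', hSD', hD'⟩ := hFB t hnt (orc A σ₀)
  obtain ⟨hcard, hsum⟩ := hFIS.2.2 n (2 ^ a)
  have h1t : 1 ≤ 2 ^ t := Nat.one_le_two_pow
  have h1a : 1 ≤ a := by omega
  have hS2 : Syg (D2 D D') (lev2 fun s : Om n (2 ^ a) => lv n s.1) (2 ^ t) t K a :=
    hSYT _ _ _ _ D D' _ _ _ _ _ hSD hSD'
  have hX : Fintype.card (Xn n) = 2 ^ n := by simp
  have hZ : Fintype.card (Ys n 0) = 2 ^ (2 * n) := by simp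
  have hlen' : ∀ s : Om n (2 ^ a), n ≤ s.1.length := fun s =>
    (Nat.le_self_pow (by norm_num) n).trans s.2.1
  have hc2 : Fintype.card (Om n (2 ^ a) ⊕ Om n (2 ^ a)) = 2 * Fintype.card (Om n (2 ^ a)) := by
    rw [Fintype.card_sum]; ring
  set T' : Wn n → Nn n 1 → Bool := fun p => TT n (jR R zr p) with hT'
  set U' : Wn n → Xn n → Nn n 1 → Bool := fun p x => UU n (jR R zr p) x with hU'
  have hδ0' : (0 : ℝ) ≤ δm := (hPrm.δ_nonneg 0).trans (hδm 0 (by omega))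
  -- the base of the induction
  have hbase : ∀ f : (Nn n 1 → Bool) → Bool, Fm (2 ^ t) t K f →
      ((univ.filter fun p : Wn n => k 0 < (univ.filter fun x =>
        f (U' p x) ≠ f (T' p)).card).card : ℝ) ≤ δ 0 * Fintype.card (Wn n) := by
    intro f hf
    have h := hBSJ (Xn n) (Ys n 0) (2 ^ t) t K w0 r0 k0 (k 0) R zr hw0 hk0 hkap f hf
    refine h.trans ?_
    refine mul_le_mul_of_nonneg_right (le_trans ?_ hδ0) (by positivity)
    rw [hX]
    push_cast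
    have hq : (0 : ℝ) ≤ 2 / qw w0 ^ (K + 2) * (((2 : ℝ) ^ n + 1) * (2 ^ t + 2 ^ t + 1) ^ (K + 2) *
      2 / 2 ^ w0 + 1 / 4 ^ r0) := by
      have : (0 : ℝ) ≤ qw w0 := by
        unfold qw
        positivity
      positivity
    refine mul_le_mul_of_nonneg_right ?_ hq
    have e1 : (2 * (Fintype.card (Ys n 0) : ℝ)) ^ R.card = 2 ^ ((2 * n + 1) * R.card) := by
      rw [hZ, Nat.cast_pow, Nat.cast_ofNat, pow_mul 2 (2 * n + 1), pow_succ']
    rw [e1]
    exact pow_le_pow_right₀ (by norm_num) hR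
  -- the real world
  have hreal := hGXP (Wn n) (Nn n 1) (Om n (2 ^ a) ⊕ Om n (2 ^ a))
    (nn2 fun s : Om n (2 ^ a) => ns s.1) (qb2 fun s : Om n (2 ^ a) => qs s.1) T' (D2 D D')
    (lev2 fun s => lv n s.1) (2 ^ t) t K a S' ((K + 5) * a + 3) (2 ^ n - 1)
    (4 * Fintype.card (Om n (2 ^ a)) * δm)
    (Evt (fun _ => False) T' U' (D2 D D') (lev2 fun s => lv n s.1) a0 a k) hS2
    (fun s => by rcases s with s | s <;> simp only [qb2, qs] <;> omega)
    (fun s f hf => by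
      have e0 : (K + 5) * a + 3 = (K + 5) * a + 2 + 1 := rfl
      rw [e0] at hf
      have := hL12 (VV (qb2 (fun s : Om n (2 ^ a) => qs s.1) s)) S' ((K + 5) * a + 2) w' f hw1 hf
      refine this.trans ?_
      have hc : (Fintype.card (VV (qb2 (fun s : Om n (2 ^ a) => qs s.1) s)) : ℝ) =
          2 * 2 ^ qb2 (fun s : Om n (2 ^ a) => qs s.1) s := by
        have : Fintype.card (VV (qb2 (fun s : Om n (2 ^ a) => qs s.1) s)) =
          2 * 2 ^ qb2 (fun s : Om n (2 ^ a) => qs s.1) s := by simp [VV]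
        rw [this]; push_cast; rfl
      rw [hc]
      have h := hL (qb2 (fun s : Om n (2 ^ a) => qs s.1) s) (by
        rcases s with s | s <;> · have := s.2.2; simp only [qb2, qs]; omega)
      linarith)
    (fun p e P s i => hCLE (Wn n) (Xn n) (Nn n 1) (Om n (2 ^ a) ⊕ Om n (2 ^ a)) _ _
      (fun _ => False) T' U' (D2 D D') (lev2 fun s => lv n s.1) (2 ^ t) t K a a0 S' M k hS2 h1t
      ht1 h1a h2S htS htS hKM hMS (by
        rw [hX, hc2]
        exact (Nat.mul_le_mul_right _ (Nat.mul_le_mul_left 2 hcard)).trans hbig)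
      (by rw [hX]; exact Nat.one_le_two_pow) p e P s i)
    (fun P => by
      refine (hFIQ (Wn n) (Xn n) (Nn n 1) (Om n (2 ^ a) ⊕ Om n (2 ^ a)) _ _ T' U' (D2 D D')
        (lev2 fun s => lv n s.1) (2 ^ t) t K a a0 w r k δ δm hS2 (by rw [hX]; exact hPrm) h1t h1a
        hbase hδm P).trans (le_of_eq ?_)
      congr 1
      rw [hc2]
      push_cast
      ring)
  -- the second machine does not matter
  have hmrg := hMRG (Om n (2 ^ a)) (fun s => ns s.1) (fun s => qs s.1)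
    (fun κ P => ((univ.filter fun p : Wn n => BadS n a a0 M A B σ₀ (jR R zr p) κ P).card : ℝ))
    (fun κ' P' => ((univ.filter fun p : Wn n => Evt (fun _ => False) T' U' (D2 D D')
      (lev2 fun s => lv n s.1) a0 a k p (elG (accG (D2 D D') P') (T' p) κ' a) P').card : ℝ))
    (2 / 2 ^ (2 * n) * Fintype.card (Wn n)) ?_ ?_
  · refine hmrg.trans (le_of_eq ?_)
    ring
  · intro κ P κ' P' hκ hP
    refine Nat.cast_le.2 (card_le_card fun p hp => ?_)
    rw [mem_filter] at hp ⊢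
    refine ⟨mem_univ _, ?_⟩
    by_contra hE
    have hW : Wor n a a0 A σ₀ (orc A σ₀) (wT n a A σ₀ (jR R zr p) κ P)
        (wX n a a0 A σ₀ (jR R zr p) κ P) (jR R zr p) κ P :=
      ⟨by omega, ha0, haa, hlen, hLA, (hORC A hLA σ₀).1, (hORC A hLA _).1,
        fun x => (hORC _ ((hMSK A hLA).1 _ _) _).1⟩
    obtain ⟨h1, h2⟩ := hCHP n a a0 M A B σ₀ (orc A σ₀) _ _ (jR R zr p) κ P D D' (2 ^ t) t K k κ' P'
      hW hLB hSD hSD' h1t ht1 hD hD' hκ hP hE hM1 hKM
    rcases hp.2 with ⟨w, hw, h⟩ | ⟨s, hs, h⟩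
    · exact absurd (h1 w hw) (by simpa using h)
    · exact absurd (h2 s hs) (by simpa using h)
  · refine hreal.trans ?_
    rw [hc2]
    have hW0 : (0 : ℝ) ≤ Fintype.card (Wn n) * 2 ^ (2 * Fintype.card (Om n (2 ^ a))) := by
      positivity
    have h1 : 4 * (Fintype.card (Om n (2 ^ a)) : ℝ) * δm ≤ 1 / 2 ^ (2 * n) := by
      refine le_trans (mul_le_mul_of_nonneg_right ?_ hδ0') hδ16
      have : (Fintype.card (Om n (2 ^ a)) : ℝ) ≤ 2 ^ n ^ 2 ^ a := by exact_mod_cast hcard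
      linarith
    have h2 : ∑ s : Om n (2 ^ a) ⊕ Om n (2 ^ a), (nn2 (fun s : Om n (2 ^ a) => ns s.1) s : ℝ) *
        ((2 ^ n - 1 + 1) / √(2 ^ qb2 (fun s : Om n (2 ^ a) => qs s.1) s)) ≤ 2 / 2 ^ n ^ 2 := by
      rw [sns_sum]
      refine le_trans (sum_le_sum fun s _ => ?_) hsum
      refine le_trans ?_ (hNUM s.1).1
      refine mul_le_mul_of_nonneg_left ?_ (by positivity)
      refine div_le_div_of_nonneg_right ?_ (by positivity)
      rw [sub_add_cancel]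
      exact pow_le_pow_right₀ (by norm_num) (hlen' s)
    have h3 : (2 : ℝ) / 2 ^ n ^ 2 ≤ 1 / 2 ^ (2 * n) := by
      rw [div_le_div_iff₀ (by positivity) (by positivity), one_mul, ← pow_succ']
      exact pow_le_pow_right₀ (by norm_num) (by nlinarith)
    refine (mul_le_mul_of_nonneg_right (add_le_add h1 (h2.trans h3)) hW0).trans (le_of_eq ?_)
    ring

end Pool.Agent.H75.GG
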