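import Pool.Agent.H75.GS.All2
import Pool.Agent.H75.GG.SNS
import Pool.Agent.H75.GG.HID
import Pool.Agent.H75.GG.FNG
import Pool.Agent.H54.GG.AD1
import Pool.Agent.H17.GG.AD2
import Pool.Agent.H36.GG.AD3
import Pool.Agent.H17.GG.BSJ
import Pool.Agent.H4.GG.CHP
import Pool.Agent.H54.GG.DCE
import Pool.Agent.H12.GG.DEP
import Pool.Agent.H7.GG.DG1
import Pool.Agent.H5.GG.DG2
import Pool.Agent.H17.GG.ELT
import Pool.Agent.H84.GG.ERH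
import Pool.Agent.H54.GG.EXS
import Pool.Agent.H60.GG.FIQ
import Pool.Agent.H61.GG.FMA
import Pool.Agent.H60.GG.FMP
import Pool.Agent.H51.GG.GLB
import Pool.Agent.H7.GG.GXP
import Pool.Agent.H35.GG.HRD
import Pool.Agent.H69.GG.HYE
import Pool.Agent.H77.GG.LBL
import Pool.Agent.H11.GG.LCG
import Pool.Agent.H60.GG.LO2
import Pool.Agent.H38.GG.LOC
import Pool.Agent.H79.GG.MRG
import Pool.Agent.H73.GG.MWR
import Pool.Agent.H69.GG.OFF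
import Pool.Agent.H68.GG.ORC
import Pool.Agent.H10.GG.PM1
import Pool.Agent.H10.GG.PM2
import Pool.Agent.H42.GG.SEE
import Pool.Agent.H12.GG.SLP
import Pool.Agent.H77.GG.SPL
import Pool.Agent.H38.GG.STP
import Pool.Agent.H68.GG.SUM
import Pool.Agent.H60.GG.SYT
import Pool.Agent.H42.GG.TRL
import Pool.Agent.H1.GG.UN1
import Pool.Agent.H65.GG.UN2
import Pool.Agent.H1.GG.UNQ
import Pool.Agent.H80.GG.WGT

/-!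
# Unfindable errors at every length, against circuits with advice: assembly
-/

set_option autoImplicit false

namespace Pool.Agent.H75.GG

open Pool.Agent.H70.OQ Pool.Agent.H75.GS

theorem a_ORC : T_ORC := Pool.Agent.H68.GG.pf_ORC pf_BLG pf_BUG

theorem a_SYT : T_SYT := Pool.Agent.H60.GG.pf_SYT pf_FMS

theorem a_CHP : T_CHP := Pool.Agent.H4.GG.pf_CHP a_WRF a_WRT a_LKX Pool.Agent.H89.GS.pf_MSK
  a_SYX pf_MEG pf_EXG a_SYT Pool.Agent.H17.GG.pf_ELT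

theorem a_GXP : T_GXP := Pool.Agent.H7.GG.pf_GXP pf_MEG Pool.Agent.H6.NB.pf_HYB
  Pool.Agent.H6.NB.pf_CPY pf_CHG Pool.Agent.H6.NB.pf_CLR Pool.Agent.H6.NB.pf_DIF
  Pool.Agent.H6.NB.pf_MUP

theorem a_FIQ : T_FIQ := Pool.Agent.H60.GG.pf_FIQ pf_IDG pf_MEG pf_EXG pf_FMS a_SYX

theorem a_BSJ : T_BSJ := Pool.Agent.H17.GG.pf_BSJ (Pool.Agent.H78.GS.bsc pf_CLG pf_CUB)

theorem a_MRG : T_MRG := Pool.Agent.H79.GG.pf_MRG Pool.Agent.H6.NB.pf_MUP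

theorem a_SNS : T_SNS := sns a_GXP a_FIQ a_CLE a_BSJ a_MRG a_CHP a_ORC
  Pool.Agent.H89.GS.pf_MSK a_SYT Pool.Agent.H6.NB.pf_FIS Pool.Agent.H6.NB.pf_NUM
  Pool.Agent.H6.NB.pf_L12

theorem a_SLP : T_SLP := Pool.Agent.H12.GG.pf_SLP Pool.Agent.H87.GS.pf_BBH
  Pool.Agent.H11.GS.pf_HTS Pool.Agent.H89.GS.pf_MGS

theorem a_STP : T_STP := Pool.Agent.H38.GG.pf_STP a_SNS a_SLP a_WRF Pool.Agent.H89.GS.pf_MSK
  a_ORC Pool.Agent.H6.NB.pf_MUP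

theorem a_SEE : T_SEE := Pool.Agent.H42.GG.pf_SEE pf_NST Pool.Agent.H6.NB.pf_COD

theorem a_SPL : T_SPL :=
  Pool.Agent.H77.GG.pf_SPL a_SEE pf_CLH pf_NST Pool.Agent.H6.NB.pf_COD

theorem a_FMP : T_FMP := Pool.Agent.H60.GG.pf_FMP pf_FMS pf_CLH pf_NST

theorem a_LCG : T_LCG := Pool.Agent.H11.GG.pf_LCG a_FMP a_ORC

theorem a_HID : T_HID := hid a_STP Pool.Agent.H38.GG.pf_LOC Pool.Agent.H42.GG.pf_TRL a_SPL
  Pool.Agent.H69.GG.pf_OFF a_LCG a_FMP Pool.Agent.H6.NB.pf_MUP Pool.Agent.H6.NB.pf_FIS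

theorem a_MWR : T_MWR := Pool.Agent.H73.GG.pf_MWR a_LCG a_SEE Pool.Agent.H97.GS.pf_BUX a_ORC
  a_FMP pf_NST

theorem a_UNQ : T_UNQ := Pool.Agent.H1.GG.pf_UNQ a_LCG a_SEE pf_NST

theorem a_AD3 : T_AD3 := Pool.Agent.H36.GG.pf_AD3
  (Pool.Agent.H54.GG.pf_AD1 Pool.Agent.H87.GS.pf_BBH Pool.Agent.H1.GS.pf_QMS)
  Pool.Agent.H17.GG.pf_AD2 Pool.Agent.H1.GS.pf_QMS pf_NST

theorem a_HRD : T_HRD := Pool.Agent.H35.GG.pf_HRD Pool.Agent.H60.GG.pf_LO2 a_MWR a_AD3 a_UNQ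
  Pool.Agent.H6.NB.pf_PCG

theorem a_DCE : T_DCE :=
  Pool.Agent.H54.GG.pf_DCE Pool.Agent.H6.NB.pf_DCP Pool.Agent.H6.NB.pf_NUM

theorem a_DEP : T_DEP :=
  Pool.Agent.H12.GG.pf_DEP a_LCG a_SEE Pool.Agent.H97.GS.pf_BUX Pool.Agent.H6.NB.pf_COD

theorem a_GLB : T_GLB := Pool.Agent.H51.GG.pf_GLB Pool.Agent.H1.GG.pf_UN1
  Pool.Agent.H65.GG.pf_UN2 Pool.Agent.H65.GG.pf_TR1 a_HID a_HRD a_DCE Pool.Agent.H68.GG.pf_SUM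
  a_DEP (Pool.Agent.H80.GG.pf_WGT Pool.Agent.H6.NB.pf_MUP) a_UNQ Pool.Agent.H6.NB.pf_PCG
  Pool.Agent.H6.NB.pf_FIS

theorem a_ERH : T_ERH := Pool.Agent.H84.GG.pf_ERH pf_YEG Pool.Agent.H6.NB.pf_COD a_LCG a_SEE
  Pool.Agent.H69.GG.pf_HYE

theorem a_DG2 : T_DG2 := Pool.Agent.H5.GG.pf_DG2
  (Pool.Agent.H7.GG.pf_DG1 (Pool.Agent.H10.GG.pf_PM2 Pool.Agent.H10.GG.pf_PM1))
  Pool.Agent.H71.GS.pf_DGL

theorem a_UNX : T_UNX := Pool.Agent.H13.GS.pf_UNX pf_UNG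

theorem a_FNG : Main3 := fng Pool.Agent.H1.GS.pf_WLM a_UNX a_DG2
  (Pool.Agent.H61.GG.pf_FMA a_FMX pf_LAK) Pool.Agent.H77.GG.pf_LBL
  (Pool.Agent.H54.GG.pf_EXS a_UNX pf_LAK) a_GLB a_UNQ a_ERH Pool.Agent.H6.NB.pf_FIS

end Pool.Agent.H75.GG
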