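import Pool.Agent.H75.GS.Targets3

/-!
# Unfindable errors at every length, against circuits with advice: definitions

The random configuration of the stage `n` (part A) and of all stages (part B).
-/

set_option autoImplicit false

namespace Pool.Agent.H75.GG

open Finset Filter Pool.Agent.H6.NB Pool.Agent.H70.OQ Pool.Agent.H75.GS

/-! ## Part A: one stage -/

section

variable {B Ω : Type} {nn qb : Ω → ℕ}

/-- The numbers of copies for two machines; the instances `inr s` of the second machine have no copies. -/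
def nn2 (nn : Ω → ℕ) : Ω ⊕ Ω → ℕ
  | .inl s => nn s
  | .inr _ => 0

/-- The sizes of the copies for two machines. -/
def qb2 (qb : Ω → ℕ) : Ω ⊕ Ω → ℕ
  | .inl s => qb s
  | .inr s => qb s

/-- The levels for two machines. -/
def lev2 (lev : Ω → ℕ) : Ω ⊕ Ω → ℕ
  | .inl s => lev s
  | .inr s => lev s

/-- The positions as positions for two machines. -/
def emb2 : PosG B Ω nn qb → PosG B (Ω ⊕ Ω) (nn2 nn) (qb2 qb)
  | .cst b => .cst b
  | .bas a => .bas a
  | .key s => .key (.inl s)
  | .blk s i v => .blk (.inl s) i v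

/-- The instances of the two machines with the formulas `D` and `D'`; both read only the keys and the
copies of the first machine. -/
def D2 (D D' : Ω → (PosG B Ω nn qb → Bool) → Bool) :
    Ω ⊕ Ω → (PosG B (Ω ⊕ Ω) (nn2 nn) (qb2 qb) → Bool) → Bool
  | .inl s => fun y => D s fun c => y (emb2 c)
  | .inr s => fun y => D' s fun c => y (emb2 c)

/-- The weight of the copies `P` if the keys are `κ`. -/
noncomputable def WtB [Fintype Ω] (κ : Ω → Bool) (P : Blk nn qb) : ℝ :=
  ∏ s, ∏ i, mu (κ s) (qb s) (P s i)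

end

/-- Change the configuration at the rows of `R`: they become members, with the witnesses `zr`. -/
def jR {X Z : Type} [DecidableEq X] (R : Finset X) (zr : X → Z) (p : (X → Z) × (X → Bool)) :
    (X → Z) × (X → Bool) :=
  (fun x => if x ∈ R then zr x else p.1 x, fun x => if x ∈ R then true else p.2 x)

open Classical in
/-- Remove the strings of `U`. -/
noncomputable def mks (U : Set (List Bool)) (O : List Bool → Bool) : List Bool → Bool :=
  fun w => if w ∈ U then false else O w

/-- The instances of the machine `A` of the stage `n` are given by formulas of depth `K`. -/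
def FmM (n a t K : ℕ) (A : List Bool → (List Bool → Bool) → Prop) : Prop :=
  ∀ o : List Bool → Bool, ∃ D : Om n (2 ^ a) → (Cg 1 n (2 ^ a) → Bool) → Bool,
    Syg D (fun s => lv n s.1) (2 ^ t) t K a ∧
    ∀ (s : Om n (2 ^ a)) T e P, (A s.1 (fun w => vlG T e P (clg 1 n (2 ^ a) o w)) ↔
      accG D P s T e = true)

open Classical in
/-- The oracle built from the seed `σ`. -/
noncomputable def orc (A : List Bool → (List Bool → Bool) → Prop) (σ : List Bool → Bool) :
    List Bool → Bool :=
  if h : ∃ O, Bldg A σ O then h.choose else fun _ => false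

/-- The world of the configuration `p` without special row. -/
noncomputable def wT (n a : ℕ) (A : List Bool → (List Bool → Bool) → Prop) (σ₀ : List Bool → Bool)
    (p : Wn n) (κ : Om n (2 ^ a) → Bool) (P : Blk (fun s : Om n (2 ^ a) => ns s.1) fun s => qs s.1) :
    List Bool → Bool :=
  orc A (sdg 1 n (2 ^ a) σ₀ (TT n p) κ P)

/-- The world of the configuration `p` with the special row `x`. -/
noncomputable def wX (n a a0 : ℕ) (A : List Bool → (List Bool → Bool) → Prop)
    (σ₀ : List Bool → Bool) (p : Wn n) (κ : Om n (2 ^ a) → Bool)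
    (P : Blk (fun s : Om n (2 ^ a) => ns s.1) fun s => qs s.1) (x : Xn n) : List Bool → Bool :=
  orc (mskA (n ^ 2 ^ a0) (pst n x (p.1 x)) A) (sdg 1 n (2 ^ a) σ₀ (UU n p x) κ P)

open Classical in
/-- Too many rows matter: for a string of the oracle or for the answer of the machine `B`. -/
def BadS (n a a0 M : ℕ) (A B : List Bool → (List Bool → Bool) → Prop) (σ₀ : List Bool → Bool)
    (p : Wn n) (κ : Om n (2 ^ a) → Bool) (P : Blk (fun s : Om n (2 ^ a) => ns s.1) fun s => qs s.1) :
    Prop :=
  (∃ w : List Bool, w.length ≤ n ^ 2 ^ a ∧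
    M < ((univ.filter fun x : Xn n => p.2 x = false).filter fun x =>
      wX n a a0 A σ₀ p κ P x w ≠ wT n a A σ₀ p κ P w).card) ∨
  ∃ s : List Bool, s.length < n ^ 2 ^ a ∧
    M < ((univ.filter fun x : Xn n => p.2 x = false).filter fun x =>
      ¬ (B s (wX n a a0 A σ₀ p κ P x) ↔ B s (wT n a A σ₀ p κ P))).card

/-- The parameters of the stage `n` for formulas of depth `K`: `a` levels, at most `M` rows matter. -/
def PrS (K n a M : ℕ) : Prop :=
  ∃ (t S' w' w0 r0 k0 : ℕ) (w r k : ℕ → ℕ) (δ : ℕ → ℝ) (δm : ℝ),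
    1 ≤ t ∧ n ^ 2 ^ a ≤ t ^ 2 ∧ 1 ≤ w0 ∧ 1 ≤ k0 ∧
    (2 * (w0 + (2 * w0 + 1) * (4 * k0 + r0)) : ℝ) ≤ k 0 * qw w0 ^ (K + 2) ∧
    (2 : ℝ) ^ n ^ 2 ^ a * (2 / qw w0 ^ (K + 2) * (((2 : ℝ) ^ n + 1) * (2 ^ t + 2 ^ t + 1) ^ (K + 2) *
      2 / 2 ^ w0 + 1 / 4 ^ r0)) ≤ δ 0 ∧
    Prm (2 ^ n) (2 ^ t) t K a w r k δ ∧ (∀ j < a, δ j ≤ δm) ∧
    4 * (2 : ℝ) ^ n ^ 2 ^ a * δm ≤ 1 / 2 ^ (2 * n) ∧
    2 ≤ S' ∧ 2 ^ t ≤ S' ∧ (∀ j < a, k j ≤ M) ∧ 1 ≤ M ∧ M + 1 ≤ S' ∧
    2 * 2 ^ n ^ 2 ^ a * (2 ^ n) ^ (M + 1) ≤ S' ∧ 1 ≤ w' ∧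
    ∀ q : ℕ, q ≤ 10 * n ^ 2 ^ a + 100 →
      (128 * (w' : ℝ)) ^ (2 * ((K + 5) * a + 3)) * ((w' : ℝ) ^ 2 +
        (2 * 2 ^ q) ^ 2 * ((S' : ℝ) + 1) ^ ((K + 5) * a + 3) / 2 ^ w') + 1 ≤ 2 ^ n

/-- Every short answer of the oracle `Eo O` is fixed by the strings of `O` of length less than `n`, or
is an answer of `O`, or depends only on one answer of the machine `B`. -/
def ExtP (n N : ℕ) (B : List Bool → (List Bool → Bool) → Prop)
    (Eo : (List Bool → Bool) → List Bool → Bool) : Prop :=
  ∀ w : List Bool, w.length ≤ N →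
    (∀ O O' : List Bool → Bool, (∀ v : List Bool, v.length < n → O v = O' v) → Eo O w = Eo O' w) ∨
    (∃ v : List Bool, v.length ≤ N ∧ ∀ O, Eo O w = O v) ∨
    ∃ s : List Bool, s.length < N ∧ ∃ Y : Prop, ∀ O, (Eo O w = true ↔ Y ∧ B s O)

/-! ## Part B: all stages -/

/-- The data of the construction: `acc` is the machine, `n0` the first length, `r n` the number of special
rows of length `n`, `lab n x` the label of the row `x`; the instances of length less than
`n ^ 2 ^ a0 n` ignore the special rows of length `n`, and the stage `n` deals with the strings of length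
at most `n ^ 2 ^ aa n`. -/
structure Dat where
  /-- the machine -/
  acc : List Bool → (List Bool → Bool) → Prop
  /-- the first length -/
  n0 : ℕ
  /-- the number of special rows -/
  r : ℕ → ℕ
  /-- the labels -/
  lab : ∀ n, Xn n → Fin (r n)
  /-- the frozen levels -/
  a0 : ℕ → ℕ
  /-- the levels -/
  aa : ℕ → ℕ

namespace Dat

/-- The length of the first aware instances. -/
def H (G : Dat) (n : ℕ) : ℕ := n ^ 2 ^ G.a0 n

/-- The horizon of the stage. -/
def N (G : Dat) (n : ℕ) : ℕ := n ^ 2 ^ G.aa n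

end Dat

/-- The choices of the special rows and their witnesses. -/
abbrev Spc (G : Dat) (n : ℕ) : Type := ∀ k : Fin (G.r n), {x : Xn n // G.lab n x = k} × Ys n 0

/-- The values of the cells: `inl n` stands for the strings of the tables of length `n`, `inr s` for the
key and the copies of the instance `s`. -/
def Val (G : Dat) : ℕ ⊕ List Bool → Type
  | .inl n => Wn n × Spc G n
  | .inr s => Bool × (Fin (ns s) → VV (qs s) → Bool)

instance (G : Dat) (i : ℕ ⊕ List Bool) : Fintype (Val G i) :=
  match i with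
  | .inl n => inferInstanceAs (Fintype (Wn n × Spc G n))
  | .inr s => inferInstanceAs (Fintype (Bool × (Fin (ns s) → VV (qs s) → Bool)))

/-- The configurations. -/
abbrev Cfg (G : Dat) : Type := ∀ i, Val G i

/-- The configuration of the table of length `n`, without special rows. -/
def cfT {G : Dat} (ω : Cfg G) (n : ℕ) : Wn n := (ω (.inl n) : Wn n × Spc G n).1

/-- The special rows of length `n`. -/
def cfS {G : Dat} (ω : Cfg G) (n : ℕ) : Spc G n := (ω (.inl n) : Wn n × Spc G n).2

/-- The key of the instance `s`. -/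
def cfK {G : Dat} (ω : Cfg G) (s : List Bool) : Bool :=
  (ω (.inr s) : Bool × (Fin (ns s) → VV (qs s) → Bool)).1

/-- The copies of the instance `s`. -/
def cfP {G : Dat} (ω : Cfg G) (s : List Bool) : Fin (ns s) → VV (qs s) → Bool :=
  (ω (.inr s) : Bool × (Fin (ns s) → VV (qs s) → Bool)).2

/-- The special row with the label `k`. -/
def row {G : Dat} {n : ℕ} (y : Spc G n) (k : Fin (G.r n)) : Xn n := (y k).1.1

/-- The string of the special row with the label `k`. -/
def ust {G : Dat} {n : ℕ} (y : Spc G n) (k : Fin (G.r n)) : List Bool := pst n (row y k) (y k).2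

/-- The configuration `p` together with the special rows with the labels in `J`. -/
def jn {G : Dat} {n : ℕ} (y : Spc G n) (J : Finset (Fin (G.r n))) (p : Wn n) : Wn n :=
  jR (J.image (row y)) (fun x => (y (G.lab n x)).2) p

/-- The configuration `q`, the witness of the row `x` is `z`, and `x` is not a member. -/
def bs {n : ℕ} (q : Wn n) (x : Xn n) (z : Ys n 0) : Wn n :=
  (Function.update q.1 x z, Function.update q.2 x false)

/-- The configuration `p`, the special rows are not members. -/
def rm {G : Dat} {n : ℕ} (y : Spc G n) (p : Wn n) : Wn n :=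
  (p.1, fun x => if x = row y (G.lab n x) then false else p.2 x)

open Classical in
/-- The seed of a configuration. -/
noncomputable def seed {G : Dat} (ω : Cfg G) (w : List Bool) : Bool :=
  if h : ∃ c : Σ n : ℕ, Xn n × Ys n 0, G.n0 ≤ c.1 ∧ w = pst c.1 c.2.1 c.2.2 then
    tT (jn (cfS ω h.choose.1) univ (cfT ω h.choose.1)) h.choose.2
  else if h : ∃ s, w = key s then cfK ω h.choose
  else if h : ∃ c : Σ s : List Bool, Fin (ns s) × VV (qs s),
      w = blk c.1 c.2.1 c.2.2.1 (List.ofFn c.2.2.2) then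
    cfP ω h.choose.1 h.choose.2.1 h.choose.2.2
  else false

/-- The special strings which are ignored by the instances of length `l`. -/
def Spt {G : Dat} (ω : Cfg G) (l : ℕ) : Set (List Bool) :=
  {w | ∃ (n : ℕ) (k : Fin (G.r n)), G.n0 ≤ n ∧ l < G.H n ∧ w = ust (cfS ω n) k}

/-- The special strings after the string `(n, k)` which are ignored by the instances of length `l`. -/
def Lat {G : Dat} (ω : Cfg G) (n : ℕ) (k : Fin (G.r n)) (l : ℕ) : Set (List Bool) :=
  {w | ∃ (n' : ℕ) (k' : Fin (G.r n')), G.n0 ≤ n' ∧ l < G.H n' ∧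
    (n < n' ∨ (n = n' ∧ k.1 < k'.1)) ∧ w = ust (cfS ω n') k'}

/-- The special strings different from `(n, k)` which are ignored by the instances of length `l`. -/
def Oth {G : Dat} (ω : Cfg G) (n : ℕ) (k : Fin (G.r n)) (l : ℕ) : Set (List Bool) :=
  {w | ∃ (n' : ℕ) (k' : Fin (G.r n')), G.n0 ≤ n' ∧ l < G.H n' ∧
    (n ≠ n' ∨ k.1 ≠ k'.1) ∧ w = ust (cfS ω n') k'}

/-- The machine `acc` where the instances of length `l` ignore the strings of `U l`. -/
def ign (acc : List Bool → (List Bool → Bool) → Prop) (U : ℕ → Set (List Bool)) :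
    List Bool → (List Bool → Bool) → Prop := fun s O => acc s (mks (U s.length) O)

/-- The oracle of a configuration. -/
noncomputable def wld {G : Dat} (ω : Cfg G) : List Bool → Bool := orc (ign G.acc (Spt ω)) (seed ω)

/-- The errors of the stage `n` for the special string `k`. -/
def Enk {G : Dat} (ω : Cfg G) (n : ℕ) (k : Fin (G.r n)) : Set (List Bool) :=
  {s | s.length < G.H n ∧ ¬ (ign G.acc (Lat ω n k) s (msk (ust (cfS ω n) k) (wld ω)) ↔
    ign G.acc (Lat ω n k) s (wld ω))}

/-- Replace the configuration of the stage `n`. -/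
noncomputable def put {G : Dat} (ω : Cfg G) (n : ℕ) (p : Wn n) (y : Spc G n)
    (κ : Om n (2 ^ G.aa n) → Bool) (P : Blk (fun s : Om n (2 ^ G.aa n) => ns s.1) fun s => qs s.1) :
    Cfg G
  | .inl m => if h : m = n then h ▸ ((p, y) : Wn n × Spc G n) else ω (.inl m)
  | .inr s => if h : n ^ 2 ≤ s.length ∧ s.length < n ^ 2 ^ G.aa n then (κ ⟨s, h⟩, P ⟨s, h⟩)
      else ω (.inr s)

/-- The weights of the values of a cell. -/
noncomputable def wgt (G : Dat) : ∀ i, Val G i → ℝ
  | .inl n => fun _ => 1 / (Fintype.card (Wn n × Spc G n) : ℝ)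
  | .inr s => fun c => 1 / 2 * ∏ i, mu c.1 (qs s) (c.2 i)

open Classical in
/-- Replace the values of the cells in `S`. -/
noncomputable def glue {I : Type} {A : I → Type} (S : Finset I) (ω : ∀ i, A i)
    (τ : ∀ i : S, A i) : ∀ i, A i := fun i => if h : i ∈ S then τ ⟨i, h⟩ else ω i

end Pool.Agent.H75.GG
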