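import Pool.Agent.H75.GG.Defs

/-!
# Unfindable errors at every length: targets of part A (one stage)
-/

set_option autoImplicit false

namespace Pool.Agent.H75.GG

open Finset Filter Pool.Agent.H6.NB Pool.Agent.H70.OQ Pool.Agent.H75.GS

/-- ORC: the oracle built from a seed. -/
def T_ORC : Prop := ∀ (A : List Bool → (List Bool → Bool) → Prop), LocA A → ∀ σ,
  Bldg A σ (orc A σ) ∧ ∀ O, Bldg A σ O → O = orc A σ

/-- SYT: the formulas of two machines. -/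
def T_SYT : Prop := ∀ (B Ω : Type) (nn qb : Ω → ℕ) (D D' : Ω → (PosG B Ω nn qb → Bool) → Bool)
  (lev : Ω → ℕ) (S t d h : ℕ), Syg D lev S t d h → Syg D' lev S t d h →
  Syg (D2 D D') (lev2 lev) S t d h

/-- ELT: the encrypted answers for two machines. -/
def T_ELT : Prop := ∀ (B Ω : Type) (nn qb : Ω → ℕ) (D D' : Ω → (PosG B Ω nn qb → Bool) → Bool)
  (h a0 : ℕ) (lev : Ω → ℕ) (P : Blk (nn2 nn) (qb2 qb)) (Q : Blk nn qb) (T U : B → Bool)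
  (κ e : Ω ⊕ Ω → Bool), (∀ s, Q s = P (.inl s)) →
  (∀ s, elG (accG (D2 D D') P) T κ h (.inl s) = elG (accG D Q) T (fun s => κ (.inl s)) h s) ∧
  (∀ s, exG (accG (Daw (D2 D D') (lev2 lev) a0) P) h T U e (.inl s) =
    exG (accG (Daw D lev a0) Q) h T U (fun s => e (.inl s)) s) ∧
  (∀ s, accG (D2 D D') P (.inl s) T e = accG D Q s T fun s => e (.inl s)) ∧
  ∀ s, accG (D2 D D') P (.inr s) T e = accG D' Q s T fun s => e (.inl s)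

open Classical in
/-- CHP: only few rows matter for short strings and for the answers of the machine `B`. -/
def T_CHP : Prop := ∀ (n a a0 M : ℕ) (A B : List Bool → (List Bool → Bool) → Prop)
  (σ₀ O₀ OT : List Bool → Bool) (Ox : Xn n → List Bool → Bool) (p : Wn n)
  (κ : Om n (2 ^ a) → Bool) (P : Blk (fun s : Om n (2 ^ a) => ns s.1) fun s => qs s.1)
  (D D' : Om n (2 ^ a) → (Cg 1 n (2 ^ a) → Bool) → Bool) (S t d : ℕ) (k : ℕ → ℕ)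
  (κ' : Om n (2 ^ a) ⊕ Om n (2 ^ a) → Bool)
  (P' : Blk (nn2 fun s : Om n (2 ^ a) => ns s.1) (qb2 fun s => qs s.1)),
  Wor n a a0 A σ₀ O₀ OT Ox p κ P → LocA B → Syg D (fun s => lv n s.1) S t d a →
  Syg D' (fun s => lv n s.1) S t d a → 1 ≤ S → 1 ≤ t →
  (∀ (s : Om n (2 ^ a)) T e P, (A s.1 (fun w => vlG T e P (clg 1 n (2 ^ a) O₀ w)) ↔
    accG D P s T e = true)) →
  (∀ (s : Om n (2 ^ a)) T e P, (B s.1 (fun w => vlG T e P (clg 1 n (2 ^ a) O₀ w)) ↔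
    accG D' P s T e = true)) →
  (∀ s, κ s = κ' (.inl s)) → (∀ s, P s = P' (.inl s)) →
  ¬ Evt (fun _ => False) (TT n) (UU n) (D2 D D') (lev2 fun s => lv n s.1) a0 a k p
    (elG (accG (D2 D D') P') (TT n p) κ' a) P' →
  1 ≤ M → (∀ j < a, k j ≤ M) →
  (∀ w : List Bool, w.length ≤ n ^ 2 ^ a →
    ((univ.filter fun x => p.2 x = false).filter fun x => Ox x w ≠ OT w).card ≤ M) ∧
  ∀ s : List Bool, s.length < n ^ 2 ^ a →
    ((univ.filter fun x => p.2 x = false).filter fun x => ¬ (B s (Ox x) ↔ B s OT)).card ≤ M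

open Classical in
/-- GXP: from the ideal to the real world. -/
def T_GXP : Prop := ∀ (W B Ω : Type) [Fintype W] [Fintype Ω] [DecidableEq Ω]
  (nn qb : Ω → ℕ) (T : W → B → Bool) (D : Ω → (PosG B Ω nn qb → Bool) → Bool) (lev : Ω → ℕ)
  (S t d h S' d' : ℕ) (Λ β : ℝ) (F : W → (Ω → Bool) → Blk nn qb → Prop), Syg D lev S t d h →
  (∀ s, 10 ≤ qb s) → (∀ s f, Cl (VV (qb s)) S' d' f → L12 (fun y => bi (f y)) ≤ Λ) →
  (∀ p e P s i, Cl (VV (qb s)) S' d' fun q => decide (F p e (updC P s i q))) →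
  (∀ P, ((univ.filter fun p : W × (Ω → Bool) => F p.1 p.2 P).card : ℝ) ≤
    β * (Fintype.card W * 2 ^ Fintype.card Ω)) →
  ∑ κ : Ω → Bool, ∑ P : Blk nn qb, WtB κ P *
    ((univ.filter fun p : W => F p (elG (accG D P) (T p) κ h) P).card : ℝ) ≤
  (β + ∑ s, (nn s : ℝ) * ((Λ + 1) / √(2 ^ qb s))) * (Fintype.card W * 2 ^ Fintype.card Ω)

open Classical in
/-- FIQ: the bad event is rare in the ideal world. -/
def T_FIQ : Prop := ∀ (W X B Ω : Type) [Fintype W] [Fintype X] [DecidableEq X] [Fintype Ω]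
  [DecidableEq Ω] (nn qb : Ω → ℕ) (T : W → B → Bool) (U : W → X → B → Bool)
  (D : Ω → (PosG B Ω nn qb → Bool) → Bool) (lev : Ω → ℕ) (S t d h a0 : ℕ) (w r k : ℕ → ℕ)
  (δ : ℕ → ℝ) (δm : ℝ), Syg D lev S t d h → Prm (Fintype.card X) S t d h w r k δ → 1 ≤ S → 1 ≤ h →
  (∀ f : (B → Bool) → Bool, Fm S t d f → ((univ.filter fun p : W =>
    k 0 < (univ.filter fun x => f (U p x) ≠ f (T p)).card).card : ℝ) ≤ δ 0 * Fintype.card W) →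
  (∀ j < h, δ j ≤ δm) →
  ∀ P : Blk nn qb, ((univ.filter fun p : W × (Ω → Bool) =>
    Evt (fun _ => False) T U D lev a0 h k p.1 p.2 P).card : ℝ) ≤
    2 * Fintype.card Ω * δm * (Fintype.card W * 2 ^ Fintype.card Ω)

/-- BSJ: the base of the induction; the configuration is fixed at the rows of `R`. -/
def T_BSJ : Prop := ∀ (X Z : Type) [Fintype X] [DecidableEq X] [Fintype Z] [DecidableEq Z]
  [Nonempty Z] (S t d w r k k' : ℕ) (R : Finset X) (zr : X → Z), 1 ≤ w → 1 ≤ k →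
  (2 * (w + (2 * w + 1) * (4 * k + r)) : ℝ) ≤ k' * qw w ^ (d + 2) →
  ∀ f : (X × Z → Bool) → Bool, Fm S t d f →
  ((univ.filter fun p : (X → Z) × (X → Bool) =>
    k' < (univ.filter fun x => f (tU (jR R zr p) x) ≠ f (tT (jR R zr p))).card).card : ℝ) ≤
    (2 * Fintype.card Z) ^ R.card * (2 / qw w ^ (d + 2) * (((Fintype.card X : ℝ) + 1) *
      ((S : ℝ) + 2 ^ t + 1) ^ (d + 2) * 2 / 2 ^ w + 1 / 4 ^ r)) *
      Fintype.card ((X → Z) × (X → Bool))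

/-- MRG: the keys of the second machine do not matter. -/
def T_MRG : Prop := ∀ (Ω : Type) [Fintype Ω] [DecidableEq Ω] (nn qb : Ω → ℕ)
  (G : (Ω → Bool) → Blk nn qb → ℝ) (G' : (Ω ⊕ Ω → Bool) → Blk (nn2 nn) (qb2 qb) → ℝ) (c : ℝ),
  (∀ κ P κ' P', (∀ s, κ s = κ' (.inl s)) → (∀ s, P s = P' (.inl s)) → G κ P ≤ G' κ' P') →
  ∑ κ' : Ω ⊕ Ω → Bool, ∑ P' : Blk (nn2 nn) (qb2 qb), WtB κ' P' * G' κ' P' ≤
    c * 2 ^ (2 * Fintype.card Ω) →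
  ∑ κ : Ω → Bool, ∑ P : Blk nn qb, WtB κ P * G κ P ≤ c * 2 ^ Fintype.card Ω

open Classical in
/-- SNS: it is rare that many rows matter. -/
def T_SNS : Prop := ∀ (K n a a0 M : ℕ), 8 ≤ n → 1 ≤ a0 → a0 < a → 3 * n + 1 ≤ n ^ 2 ^ a0 →
  PrS K n a M → ∀ [Fintype (Om n (2 ^ a))] (A B : List Bool → (List Bool → Bool) → Prop)
  (σ₀ : List Bool → Bool) (R : Finset (Xn n)) (zr : Xn n → Ys n 0), LocA A → LocA B →
  (∀ t, n ^ 2 ^ a ≤ t ^ 2 → FmM n a t K A) → (∀ t, n ^ 2 ^ a ≤ t ^ 2 → FmM n a t K B) →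
  (2 * n + 1) * R.card ≤ n ^ 2 ^ a →
  ∑ κ, ∑ P, WtB κ P * ((univ.filter fun p : Wn n =>
    BadS n a a0 M A B σ₀ (jR R zr p) κ P).card : ℝ) ≤
    2 / 2 ^ (2 * n) * (Fintype.card (Wn n) * 2 ^ Fintype.card (Om n (2 ^ a)))

open Classical in
/-- SLP: few rows are bad for some sampler. -/
def T_SLP : Prop := ∀ (X ι : Type) [Fintype ι] (N0 : Finset X) (ET : ι → List Bool → Bool)
  (Ex : ι → X → List Bool → Bool) (S : ι → Sampler) (E : X → Set (List Bool)) (LS M : ℕ)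
  (τS η : ℝ), (∀ i, (S i).alg.Short LS ∧ ((S i).alg.T : ℝ) ^ 2 ≤ τS) →
  (∀ i, ∀ w : List Bool, w.length ≤ LS → (N0.filter fun x => Ex i x w ≠ ET i w).card ≤ M) →
  (∀ s, (N0.filter fun x => s ∈ E x).card ≤ M) → 0 < η →
  ((N0.filter fun x => ∃ i, η < (S i).hit (Ex i x) (E x)).card : ℝ) * η ≤
    Fintype.card ι * (2 * M + 8 * τS * M)

open Classical in
/-- STP: one stage: it is rare that a sampler finds an error of the special row. -/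
def T_STP : Prop := ∀ (K n a a0 M : ℕ), 8 ≤ n → 1 ≤ a0 → a0 < a → 3 * n + 1 ≤ n ^ 2 ^ a0 →
  PrS K n a M → M ≤ 2 ^ (n / 16) →
  ∀ [Fintype (Om n (2 ^ a))] (A A1 A2 : List Bool → (List Bool → Bool) → Prop)
  (σ₀ : List Bool → Bool) (R : Finset (Xn n)) (zr : Xn n → Ys n 0), LocA A → LocA A1 → LocA A2 →
  (∀ t, n ^ 2 ^ a ≤ t ^ 2 → FmM n a t K A) → (∀ t, n ^ 2 ^ a ≤ t ^ 2 → FmM n a t K A1) →
  (∀ t, n ^ 2 ^ a ≤ t ^ 2 → FmM n a t K A2) → (2 * n + 1) * R.card ≤ n ^ 2 ^ a →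
  ∀ (ι : Type) [Fintype ι] (S : ι → Sampler) (Eo : ι → (List Bool → Bool) → List Bool → Bool),
  Fintype.card ι ≤ 2 ^ (n / 16) →
  (∀ i, (S i).alg.Short (n ^ 2 ^ a) ∧ (S i).alg.T ^ 2 ≤ 2 ^ (n / 8)) →
  (∀ i, ExtP n (n ^ 2 ^ a) A2 (Eo i)) →
  ∑ κ, ∑ P, WtB κ P * ((univ.filter fun c : Wn n × Xn n => (jR R zr c.1).2 c.2 = false ∧
    ∃ i, 1 / 2 ^ (n / 4) < (S i).hit (Eo i (wX n a a0 A σ₀ (jR R zr c.1) κ P c.2))
      {s | s.length < n ^ 2 ^ a0 ∧ ¬ (A1 s (msk (pst n c.2 ((jR R zr c.1).1 c.2))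
        (wX n a a0 A σ₀ (jR R zr c.1) κ P c.2)) ↔
        A1 s (wX n a a0 A σ₀ (jR R zr c.1) κ P c.2))}).card : ℝ) ≤
    2 ^ (n / 2 + 5) * (Fintype.card (Wn n) * 2 ^ Fintype.card (Om n (2 ^ a)))

/-- LOC: summation over the special row and its witness. -/
def T_LOC : Prop := ∀ (n : ℕ) (L R : Finset (Xn n)) (zr : Xn n → Ys n 0)
  (ψ : Wn n → Xn n → ℝ), Disjoint L R →
  ∑ p : Wn n, ∑ x ∈ L, ∑ z : Ys n 0, ψ (bs (jR R zr p) x z) x =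
    2 * Fintype.card (Ys n 0) *
      ∑ p : Wn n, ∑ x ∈ L.filter (fun x => (jR R zr p).2 x = false), ψ (jR R zr p) x

/-- PM1: the recursion for the parameters. -/
def T_PM1 : Prop := ∀ d n t R a x : ℕ, 1 ≤ n → 1 ≤ t → n ^ 2 + n ≤ R →
  256 * (d + 3) * (t + n + (n + 2) ^ a * (R + n + 2) + 10) ≤ 2 ^ x →
  (2 * d + 8) ^ (a + 2) * x + 3 ≤ n →
  ∃ (w0 r0 k0 : ℕ) (w r k : ℕ → ℕ) (δ : ℕ → ℝ), 1 ≤ w0 ∧ 1 ≤ k0 ∧
    (2 * (w0 + (2 * w0 + 1) * (4 * k0 + r0)) : ℝ) ≤ k 0 * qw w0 ^ (d + 2) ∧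
    (2 : ℝ) ^ R * (2 / qw w0 ^ (d + 2) * (((2 : ℝ) ^ n + 1) * (2 ^ t + 2 ^ t + 1) ^ (d + 2) *
      2 / 2 ^ w0 + 1 / 4 ^ r0)) ≤ δ 0 ∧
    Prm (2 ^ n) (2 ^ t) t d a w r k δ ∧ (∀ j, δ j ≤ 1 / 4 ^ R) ∧
    ∀ j ≤ a, k j ≤ 2 ^ ((2 * d + 8) ^ (a + 1) * x)

/-- PM2: the parameters of the stages. -/
def T_PM2 : Prop := ∀ K : ℕ, ∃ C : ℕ, ∀ᶠ n : ℕ in atTop, ∀ a, 1 ≤ a → (2 ^ a) ^ C ≤ n →
  ∃ M ≤ 2 ^ (n / 16), PrS K n a M

end Pool.Agent.H75.GG
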